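import Mathlib.Topology.Sheaves.Presheaf
import Pool.Agent.BoltzD.Calc.Cube
import Pool.Agent.BoltzD.Solver.Stmt
import Pool.Agent.BoltzD.Geo.BP
import Mathlib.RingTheory.Flat.TorsionFree
import Mathlib.RingTheory.TotallySplit
import Mathlib.RingTheory.Etale.Weakly
import Pool.Agent.BoltzD.Stmt
import Mathlib.Analysis.LocallyConvex.AbsConvexOpen
import Mathlib.MeasureTheory.Measure.CharacteristicFunction.Basic
import Mathlib.Tactic.Polynomial.Basic

-- ======== part 0: formerly Pool.Agent.BoltzD.Calc.VSob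
section MrgPart0

/-! The norms `nA` control all Schwartz seminorms. -/

set_option autoImplicit false

open Filter Topology MeasureTheory SchwartzMap Pool.Agent.BoltzC

noncomputable section

namespace Pool.Agent.BoltzD

variable [Dim]

lemma continuous_ip : Continuous fun p : SV × SV => ip p.1 p.2 := by
  simp only [ip_eq_inner]
  exact ((continuous_toLp.comp continuous_fst).inner (continuous_toLp.comp continuous_snd))

lemma continuous_nA (m : ℕ) : Continuous (nA m) := by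
  unfold nA
  refine continuous_finsetSum _ fun w _ => ?_
  exact continuous_ip.comp ((apW w).continuous.prodMk (apW w).continuous)

lemma nA_smul (m : ℕ) (c : ℝ) (f : SV) : nA m (c • f) = c ^ 2 * nA m f := by
  simp only [nA, map_smul, LinearMap.smul_apply, smul_eq_mul, Finset.mul_sum]
  exact Finset.sum_congr rfl fun w _ => by ring

@[simp] lemma nA_zero_fun (m : ℕ) : nA m 0 = 0 := by simp [nA]

lemma nA_neg (m : ℕ) (f : SV) : nA m (-f) = nA m f := by simp [nA]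

lemma nA_sub_comm (m : ℕ) (f g : SV) : nA m (f - g) = nA m (g - f) := by
  rw [← nA_neg, neg_sub]

/-- `A` loses at most `a` levels in the scale `nA`. -/
def OrdA (a : ℕ) (A : SV →L[ℝ] SV) : Prop :=
  ∀ n, ∃ C : ℝ, 0 < C ∧ ∀ f, nA n (A f) ≤ C * nA (n + a) f

lemma OrdA.id : OrdA 0 (ContinuousLinearMap.id ℝ SV) := fun _ => ⟨1, one_pos, fun f => by simp⟩

lemma OrdA.mono {a b : ℕ} {A : SV →L[ℝ] SV} (h : OrdA a A) (hab : a ≤ b) : OrdA b A := by
  intro n
  obtain ⟨C, hC, h⟩ := h n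
  exact ⟨C, hC, fun f => (h f).trans
    (mul_le_mul_of_nonneg_left (nA_mono (by omega) f) hC.le)⟩

lemma OrdA.comp {a b : ℕ} {A B : SV →L[ℝ] SV} (hA : OrdA a A) (hB : OrdA b B) :
    OrdA (a + b) (A.comp B) := by
  intro n
  obtain ⟨C, hC, h⟩ := hA n
  obtain ⟨D, hD, h'⟩ := hB (n + a)
  refine ⟨C * D, by positivity, fun f => (h _).trans ?_⟩
  rw [mul_assoc, ← add_assoc]
  exact mul_le_mul_of_nonneg_left (h' f) hC.le

lemma OrdA.add {a : ℕ} {A B : SV →L[ℝ] SV} (hA : OrdA a A) (hB : OrdA a B) : OrdA a (A + B) := by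
  intro n
  obtain ⟨C, hC, h⟩ := hA n
  obtain ⟨D, hD, h'⟩ := hB n
  refine ⟨2 * C + 2 * D, by positivity, fun f => ?_⟩
  have := nA_add_le n (A f) (B f)
  have h1 := h f
  have h2 := h' f
  change nA n (A f + B f) ≤ _
  linarith

lemma OrdA.smul {a : ℕ} {A : SV →L[ℝ] SV} (hA : OrdA a A) (c : ℝ) : OrdA a (c • A) := by
  intro n
  obtain ⟨C, hC, h⟩ := hA n
  refine ⟨(c ^ 2 + 1) * C, by positivity, fun f => ?_⟩
  change nA n (c • A f) ≤ _
  rw [nA_smul, mul_assoc]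
  have := nA_nonneg n (A f)
  have h1 := h f
  nlinarith [sq_nonneg c]

lemma OrdA.sub {a : ℕ} {A B : SV →L[ℝ] SV} (hA : OrdA a A) (hB : OrdA a B) : OrdA a (A - B) := by
  have := hA.add (hB.smul (-1))
  rwa [neg_one_smul, ← sub_eq_add_neg] at this

lemma OrdA.sum {ι : Type*} {a : ℕ} (S : Finset ι) {A : ι → SV →L[ℝ] SV}
    (h : ∀ i ∈ S, OrdA a (A i)) : OrdA a (∑ i ∈ S, A i) := by
  classical
  induction S using Finset.induction_on with
  | empty => exact fun n => ⟨1, one_pos, fun f => by simpa using nA_nonneg _ _⟩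
  | insert j S hj ih =>
    rw [Finset.sum_insert hj]
    exact (h j (Finset.mem_insert_self _ _)).add (ih fun i hi => h i (Finset.mem_insert_of_mem hi))

lemma nA_ap_le (n : ℕ) (j : Ix) (f : SV) : nA n (ap j f) ≤ nA (n + 1) f := by
  rw [nA_succ]
  exact Finset.single_le_sum (f := fun j => nA n (ap j f)) (fun _ _ => nA_nonneg _ _)
    (Finset.mem_univ j)

lemma ordA_ap (j : Ix) : OrdA 1 (ap j) :=
  fun n => ⟨1, one_pos, fun f => by simpa using nA_ap_le n j f⟩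

lemma ordA_am (j : Ix) : OrdA 1 (am j) := by
  intro n
  induction n with
  | zero =>
    refine ⟨1, one_pos, fun f => ?_⟩
    rw [nA_zero, one_mul]
    refine (ip_am_le j f).trans ?_
    simpa [nA_zero] using nA_ap_le 0 j f
  | succ n ih =>
    obtain ⟨C, hC, h⟩ := ih
    refine ⟨2 * C + 2 * dd, by positivity, fun f => ?_⟩
    have key : ∀ i, nA n (ap i (am j f)) ≤ 2 * C * nA (n + 1) (ap i f) + 2 * nA (n + 1 + 1) f := by
      intro i
      have e : ap i (am j f) = am j (ap i f) - (if j = i then (1 : ℝ) else 0) • f := by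
        rw [am_ap]; abel
      have h1 := nA_sub_le n (am j (ap i f)) ((if j = i then (1 : ℝ) else 0) • f)
      have h2 := h (ap i f)
      have h3 : nA n ((if j = i then (1 : ℝ) else 0) • f) ≤ nA (n + 1 + 1) f := by
        split_ifs
        · rw [one_smul]; exact nA_mono (by omega) f
        · rw [zero_smul, nA_zero_fun]; exact nA_nonneg _ _
      rw [e]
      linarith
    rw [nA_succ]
    refine (Finset.sum_le_sum fun i _ => key i).trans (le_of_eq ?_)
    rw [Finset.sum_add_distrib, ← Finset.mul_sum, ← nA_succ]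
    simp
    ring

lemma ordA_mulV (j : Ix) : OrdA 1 (mulV j) := by
  have : mulV j = ap j + am j := by ext1 f; exact (ap_add_am j f).symm
  rw [this]
  exact (ordA_ap j).add (ordA_am j)

lemma ordA_dV (j : Ix) : OrdA 1 (dV j) := by
  have : dV j = (1 / 2 : ℝ) • (am j - ap j) := by
    ext1 f
    change _ = (1 / 2 : ℝ) • (am j f - ap j f)
    rw [am_sub_ap, smul_smul]; norm_num
  rw [this]
  exact ((ordA_am j).sub (ordA_ap j)).smul _

lemma ordA_apW (w : List Ix) : OrdA w.length (apW w) := by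
  induction w with
  | nil => exact OrdA.id
  | cons j w ih =>
    rw [List.length_cons, add_comm]
    exact (ordA_ap j).comp ih

lemma OrdA.sqrt {a : ℕ} {A : SV →L[ℝ] SV} (hA : OrdA a A) (n : ℕ) :
    ∃ C : ℝ, 0 < C ∧ ∀ f, √(nA n (A f)) ≤ C * √(nA (n + a) f) := by
  obtain ⟨C, hC, h⟩ := hA n
  refine ⟨√C, Real.sqrt_pos.2 hC, fun f => ?_⟩
  rw [← Real.sqrt_mul hC.le]
  exact Real.sqrt_le_sqrt (h f)

/-- A word in the velocity derivatives; the head is applied first. -/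
def dW : List Ix → SV →L[ℝ] SV
  | [] => ContinuousLinearMap.id ℝ SV
  | i :: u => (dW u).comp (dV i)

lemma dW_concat (u : List Ix) (i : Ix) (f : SV) : dW (u ++ [i]) f = dV i (dW u f) := by
  induction u generalizing f with
  | nil => rfl
  | cons j u ih => exact ih _

lemma ordA_dW (u : List Ix) : OrdA u.length (dW u) := by
  induction u with
  | nil => exact OrdA.id
  | cons j u ih => exact ih.comp (ordA_dV j)

lemma hasDerivAt_line (f : SV) (i : Ix) (x : E) :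
    HasDerivAt (fun t : ℝ => f (x + t • ev i)) (dV i f x) 0 :=
  (f.hasFDerivAt x).hasLineDerivAt (ev i)

/-- Sup bound by the norm of order `dd`. -/
lemma sq_le_nA_three : ∃ C : ℝ, 0 < C ∧ ∀ (f : SV) (x : E), f x ^ 2 ≤ C * nA dd f := by
  have hb : ∀ u : List Ix, ∃ C : ℝ, 0 < C ∧ (u.length ≤ dd → ∀ (f : SV) (x : E),
      ∫ y in cube x 1, dW u f y ^ 2 ≤ C * nA dd f) := by
    intro u
    obtain ⟨C, hC, h⟩ := ordA_dW u 0
    refine ⟨C, hC, fun hu f x => ?_⟩
    have h1 : ∫ y in cube x 1, dW u f y ^ 2 ≤ ∫ y, dW u f y ^ 2 :=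
      setIntegral_le_integral (by simpa only [sq] using integrable_mul (dW u f) (dW u f))
        (Eventually.of_forall fun y => sq_nonneg _)
    rw [← ip_self_eq, ← nA_zero] at h1
    refine h1.trans ((h f).trans (mul_le_mul_of_nonneg_left (nA_mono (by omega) f) hC.le))
  choose C hC h using hb
  set S := ∑ j ∈ Finset.range (dd + 1), ∑ u ∈ words j, C u with hS
  have hle : ∀ u : List Ix, u.length ≤ dd → C u ≤ S := fun u hu =>
    (Finset.single_le_sum (f := C) (fun u _ => (hC u).le) (mem_words.2 rfl)).trans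
      (Finset.single_le_sum (f := fun j => ∑ u ∈ words j, C u)
        (fun _ _ => Finset.sum_nonneg fun u _ => (hC u).le)
        (Finset.mem_range.2 (Nat.lt_succ_of_le hu)))
  have hS0 : 0 < S := (hC []).trans_le (hle [] (Nat.zero_le _))
  refine ⟨3 ^ dd * S, by positivity, fun f x => ?_⟩
  have key := sobolev_cube_scalar (q := fun u y => dW u f y ^ 2)
    (r := fun u i y => 2 * dW u f y * dV i (dW u f) y) (L := 1) (M := S * nA dd f) one_pos
    (fun u => (dW u f).continuous.pow 2) (fun u i y => by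
      simpa using (hasDerivAt_line (dW u f) i y).fun_pow 2) (fun u i y => by
      rw [dW_concat, div_one, one_mul, abs_le]
      constructor
      · nlinarith [sq_nonneg (dW u f y + dV i (dW u f) y)]
      · nlinarith [sq_nonneg (dW u f y - dV i (dW u f) y)]) x fun u hu => by
      rw [one_pow, one_mul]
      exact (h u hu f x).trans (mul_le_mul_of_nonneg_right (hle u hu) (nA_nonneg _ _))
  simp only [one_pow, div_one] at key
  rw [mul_assoc]
  exact key

lemma norm_le_sum_abs (x : E) : ‖x‖ ≤ ∑ i, |x i| := by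
  conv_lhs => rw [← sum_coord_ev x]
  refine (norm_sum_le _ _).trans (le_of_eq (Finset.sum_congr rfl fun i _ => ?_))
  rw [norm_smul, norm_ev, mul_one, Real.norm_eq_abs]

lemma pow_mul_abs_le (k : ℕ) :
    ∃ C : ℝ, 0 < C ∧ ∀ (f : SV) (x : E), ‖x‖ ^ k * |f x| ≤ C * √(nA (k + dd) f) := by
  induction k with
  | zero =>
    obtain ⟨C, hC, h⟩ := sq_le_nA_three
    refine ⟨√C, Real.sqrt_pos.2 hC, fun f x => ?_⟩
    rw [pow_zero, one_mul, ← Real.sqrt_mul hC.le, zero_add]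
    exact Real.abs_le_sqrt (h f x)
  | succ k ih =>
    obtain ⟨C, hC, h⟩ := ih
    choose D hD h' using fun j => (ordA_mulV j).sqrt (k + dd)
    refine ⟨C * ∑ j, D j, mul_pos hC (Finset.sum_pos (fun j _ => hD j) Finset.univ_nonempty),
      fun f x => ?_⟩
    calc ‖x‖ ^ (k + 1) * |f x| = ‖x‖ * (‖x‖ ^ k * |f x|) := by ring
      _ ≤ (∑ i, |x i|) * (‖x‖ ^ k * |f x|) := by gcongr; exact norm_le_sum_abs x
      _ = ∑ i, ‖x‖ ^ k * |mulV i f x| := by
          rw [Finset.sum_mul]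
          exact Finset.sum_congr rfl fun i _ => by rw [mulV_apply, abs_mul]; ring
      _ ≤ ∑ i, C * (D i * √(nA (k + dd + 1) f)) :=
          Finset.sum_le_sum fun i _ => (h _ x).trans (mul_le_mul_of_nonneg_left (h' i f) hC.le)
      _ = _ := by
          rw [← Finset.mul_sum, ← Finset.sum_mul, mul_assoc, add_right_comm k]

lemma fderiv_eq_sum (f : E → ℝ) (y : E) :
    fderiv ℝ f y = ∑ i, fderiv ℝ f y (ev i) • (EuclideanSpace.proj i : E →L[ℝ] ℝ) := by
  ext z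
  conv_lhs => rw [← sum_coord_ev z]
  simp [mul_comm]

lemma norm_iteratedFDeriv_succ_le {f : E → ℝ} (hf : ContDiff ℝ (⊤ : ℕ∞) f) (n : ℕ) (x : E) :
    ‖iteratedFDeriv ℝ (n + 1) f x‖ ≤
      ∑ i, ‖iteratedFDeriv ℝ n (fun y => fderiv ℝ f y (ev i)) x‖ := by
  have hd : ∀ i, ContDiff ℝ (⊤ : ℕ∞) fun y => fderiv ℝ f y (ev i) := fun i =>
    (contDiff_infty_iff_fderiv.1 hf).2.clm_apply contDiff_const
  have hd' : ∀ i, ContDiff ℝ n fun y => fderiv ℝ f y (ev i) := fun i =>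
    (hd i).of_le (by exact_mod_cast le_top)
  rw [← norm_iteratedFDeriv_fderiv]
  set S : Ix → ℝ →L[ℝ] (E →L[ℝ] ℝ) := fun i =>
    ContinuousLinearMap.toSpanSingleton ℝ (EuclideanSpace.proj i : E →L[ℝ] ℝ) with hS
  have e : fderiv ℝ f = fun y => ∑ i, (S i ∘ fun y => fderiv ℝ f y (ev i)) y := by
    funext y
    rw [fderiv_eq_sum f y]
    simp [hS]
  conv_lhs => rw [e]
  rw [iteratedFDeriv_fun_sum_apply fun i _ => ((S i).contDiff.comp (hd' i)).contDiffAt]
  refine (norm_sum_le _ _).trans (Finset.sum_le_sum fun i _ => ?_)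
  refine ((S i).norm_iteratedFDeriv_comp_left (hd' i).contDiffAt le_rfl).trans ?_
  have : ‖S i‖ ≤ 1 := by
    rw [hS, ContinuousLinearMap.norm_toSpanSingleton]
    refine ContinuousLinearMap.opNorm_le_bound _ zero_le_one fun z => ?_
    simpa using PiLp.norm_apply_le z i
  exact mul_le_of_le_one_left (norm_nonneg _) this

lemma pow_mul_iteratedFDeriv_le (k n : ℕ) : ∃ C : ℝ, 0 < C ∧ ∀ (f : SV) (x : E),
    ‖x‖ ^ k * ‖iteratedFDeriv ℝ n f x‖ ≤ C * √(nA (k + n + dd) f) := by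
  induction n with
  | zero => simpa only [norm_iteratedFDeriv_zero, Real.norm_eq_abs, add_zero] using pow_mul_abs_le k
  | succ n ih =>
    obtain ⟨C, hC, h⟩ := ih
    choose D hD h' using fun j => (ordA_dV j).sqrt (k + n + dd)
    refine ⟨C * ∑ j, D j, mul_pos hC (Finset.sum_pos (fun j _ => hD j) Finset.univ_nonempty),
      fun f x => ?_⟩
    calc ‖x‖ ^ k * ‖iteratedFDeriv ℝ (n + 1) f x‖
        ≤ ‖x‖ ^ k * ∑ i, ‖iteratedFDeriv ℝ n (dV i f) x‖ := by
          gcongr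
          exact norm_iteratedFDeriv_succ_le (f.smooth ⊤) n x
      _ = ∑ i, ‖x‖ ^ k * ‖iteratedFDeriv ℝ n (dV i f) x‖ := Finset.mul_sum _ _ _
      _ ≤ ∑ i, C * (D i * √(nA (k + n + dd + 1) f)) :=
          Finset.sum_le_sum fun i _ => (h _ x).trans (mul_le_mul_of_nonneg_left (h' i f) hC.le)
      _ = _ := by
          rw [← Finset.mul_sum, ← Finset.sum_mul, mul_assoc,
            show k + n + dd + 1 = k + (n + 1) + dd by omega]

/-- Sobolev: Schwartz seminorms are bounded by the norms `nA`. -/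
lemma seminorm_le_sqrt_nA (k n : ℕ) : ∃ C : ℝ, 0 < C ∧ ∀ f : SV,
    SchwartzMap.seminorm ℝ k n f ≤ C * √(nA (k + n + dd) f) := by
  obtain ⟨C, hC, h⟩ := pow_mul_iteratedFDeriv_le k n
  exact ⟨C, hC, fun f => seminorm_le_bound ℝ k n f (by positivity) (h f)⟩

lemma seminorm_sq_le (k n : ℕ) : ∃ C : ℝ, 0 < C ∧ ∀ f : SV,
    SchwartzMap.seminorm ℝ k n f ^ 2 ≤ C * nA (k + n + dd) f := by
  obtain ⟨C, hC, h⟩ := seminorm_le_sqrt_nA k n
  refine ⟨C ^ 2, by positivity, fun f => ?_⟩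
  calc _ ≤ (C * √(nA (k + n + dd) f)) ^ 2 := by gcongr; exact h f
    _ = _ := by rw [mul_pow, Real.sq_sqrt (nA_nonneg _ _)]

/-- Every continuous seminorm on Schwartz space is bounded by one of the norms `nA`. -/
lemma seminorm_le_of_continuous (p : Seminorm ℝ SV) (hp : Continuous p) :
    ∃ (m : ℕ) (C : ℝ), 0 < C ∧ ∀ f, p f ≤ C * √(nA m f) := by
  obtain ⟨s, C, _, hle⟩ := Seminorm.bound_of_continuous (schwartz_withSeminorms ℝ E ℝ) p hp
  choose D hD h using fun q : ℕ × ℕ => seminorm_le_sqrt_nA q.1 q.2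
  refine ⟨s.sup fun q => q.1 + q.2 + dd, (C + 1) * (∑ q ∈ s, D q + 1), ?_, fun f => ?_⟩
  · have := Finset.sum_nonneg (s := s) fun q _ => (hD q).le
    positivity
  · have hS := Finset.sum_nonneg (s := s) fun q _ => (hD q).le
    have h1 : (s.sup (schwartzSeminormFamily ℝ E ℝ)) f ≤
        (∑ q ∈ s, D q + 1) * √(nA (s.sup fun q => q.1 + q.2 + dd) f) := by
      refine Seminorm.finset_sup_apply_le (by positivity) fun q hq => (h q f).trans ?_
      gcongr
      · have := Finset.single_le_sum (f := D) (fun q _ => (hD q).le) hq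
        linarith
      · exact nA_mono (Finset.le_sup (f := fun q : ℕ × ℕ => q.1 + q.2 + dd) hq) f
    calc p f ≤ C * (s.sup (schwartzSeminormFamily ℝ E ℝ)) f := hle f
      _ ≤ (C + 1) * ((∑ q ∈ s, D q + 1) * √(nA (s.sup fun q => q.1 + q.2 + dd) f)) := by
          gcongr; linarith
      _ = _ := by ring

/-- Convergence in Schwartz space is convergence of all the norms `nA`. -/
lemma tendsto_SV_iff {ι : Type*} {l : Filter ι} {f : ι → SV} {g : SV} :
    Tendsto f l (𝓝 g) ↔ ∀ m, Tendsto (fun i => nA m (f i - g)) l (𝓝 0) := by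
  constructor
  · intro h m
    have h1 : Tendsto (fun i => f i - g) l (𝓝 (g - g)) := h.sub tendsto_const_nhds
    have := ((continuous_nA m).tendsto _).comp h1
    simpa [Function.comp_def] using this
  · intro h
    rw [(schwartz_withSeminorms ℝ E ℝ).tendsto_nhds]
    rintro ⟨k, n⟩ ε hε
    obtain ⟨C, hC, hb⟩ := seminorm_le_sqrt_nA k n
    have h1 : Tendsto (fun i => C * √(nA (k + n + dd) (f i - g))) l (𝓝 (C * √0)) :=
      ((h _).sqrt).const_mul C
    rw [Real.sqrt_zero, mul_zero] at h1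
    filter_upwards [h1.eventually (gt_mem_nhds hε)] with i hi
    exact lt_of_le_of_lt (hb _) hi

/-- Weighted bounds of a Schwartz function and of its increments by a norm `nA`. -/
lemma weighted_le_nA (p : ℕ) : ∃ C : ℝ, 0 < C ∧ ∀ (f : SV) (x : E),
    (1 + ‖x‖) ^ p * |f x| ≤ C * √(nA (p + dd) f) ∧
      (1 + ‖x‖) ^ p * ‖fderiv ℝ f x‖ ≤ C * √(nA (p + dd + 1) f) := by
  obtain ⟨C₁, h₁, b₁⟩ := pow_mul_iteratedFDeriv_le 0 0
  obtain ⟨C₂, h₂, b₂⟩ := pow_mul_iteratedFDeriv_le p 0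
  obtain ⟨C₃, h₃, b₃⟩ := pow_mul_iteratedFDeriv_le 0 1
  obtain ⟨C₄, h₄, b₄⟩ := pow_mul_iteratedFDeriv_le p 1
  refine ⟨2 ^ p * (C₁ + C₂ + C₃ + C₄), by positivity, fun f x => ?_⟩
  have hw : (1 + ‖x‖) ^ p ≤ 2 ^ p * (1 + ‖x‖ ^ p) := by
    rcases le_total ‖x‖ 1 with h | h
    · calc (1 + ‖x‖) ^ p ≤ 2 ^ p := by gcongr; linarith
        _ ≤ _ := le_mul_of_one_le_right (by positivity) (by simp)
    · calc (1 + ‖x‖) ^ p ≤ (2 * ‖x‖) ^ p := by gcongr; linarith
        _ = 2 ^ p * ‖x‖ ^ p := mul_pow _ _ _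
        _ ≤ _ := by gcongr; linarith
  have c₁ := b₁ f x
  have c₂ := b₂ f x
  have c₃ := b₃ f x
  have c₄ := b₄ f x
  simp only [pow_zero, one_mul, norm_iteratedFDeriv_zero, Real.norm_eq_abs, add_zero, zero_add,
    norm_iteratedFDeriv_one] at c₁ c₂ c₃ c₄
  have m₁ : √(nA dd f) ≤ √(nA (p + dd) f) := Real.sqrt_le_sqrt (nA_mono (by omega) f)
  have m₂ : √(nA (1 + dd) f) ≤ √(nA (p + dd + 1) f) := Real.sqrt_le_sqrt (nA_mono (by omega) f)
  have s₁ := Real.sqrt_nonneg (nA (p + dd) f)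
  have s₂ := Real.sqrt_nonneg (nA (p + dd + 1) f)
  constructor
  · calc (1 + ‖x‖) ^ p * |f x| ≤ 2 ^ p * (1 + ‖x‖ ^ p) * |f x| := by gcongr
      _ = 2 ^ p * (|f x| + ‖x‖ ^ p * |f x|) := by ring
      _ ≤ 2 ^ p * ((C₁ + C₂ + C₃ + C₄) * √(nA (p + dd) f)) := by
          gcongr
          nlinarith [mul_le_mul_of_nonneg_left m₁ h₁.le]
      _ = _ := by ring
  · calc (1 + ‖x‖) ^ p * ‖fderiv ℝ f x‖ ≤ 2 ^ p * (1 + ‖x‖ ^ p) * ‖fderiv ℝ f x‖ := by gcongr
      _ = 2 ^ p * (‖fderiv ℝ f x‖ + ‖x‖ ^ p * ‖fderiv ℝ f x‖) := by ring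
      _ ≤ 2 ^ p * ((C₁ + C₂ + C₃ + C₄) * √(nA (p + dd + 1) f)) := by
          gcongr
          have c₅ : ‖x‖ ^ p * ‖fderiv ℝ f x‖ ≤ C₄ * √(nA (p + dd + 1) f) := by
            rwa [add_right_comm]
          nlinarith [mul_le_mul_of_nonneg_left m₂ h₃.le]
      _ = _ := by ring

end Pool.Agent.BoltzD

end
end MrgPart0

-- ======== part 1: formerly Pool.Agent.BoltzD.Spec.Energy
section MrgPart1

/-!
Shared definitions of the Boltzmann project, part 1: hydrodynamic projection, collision interface,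
transport operator, weighted energies, and the statements of module M4.
-/

set_option autoImplicit false

open MeasureTheory Pool.Agent.BoltzC Finset

noncomputable section

namespace Pool.Agent.BoltzD

variable [Dim]

/-! ### The hydrodynamic projection -/

/-- Orthogonal basis of the collision invariants: `sqM`, `V_i sqM`, `(|V|^2 - d) sqM`. -/
def hb : Hx → SV
  | none => sqMS
  | some none => ∑ i, ap i (ap i sqMS)
  | some (some i) => ap i sqMS

/-- The normalised basis. -/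
def eH (a : Hx) : SV := (√(ip (hb a) (hb a)))⁻¹ • hb a

/-- Pairing with a fixed Schwartz function, as a continuous functional. -/
def ipL (e : SV) : SV →L[ℝ] ℝ :=
  ⟨ip e, continuous_ip.comp (continuous_const.prodMk continuous_id)⟩

@[simp] lemma ipL_apply (e f : SV) : ipL e f = ip e f := rfl

/-- Orthogonal projection onto the collision invariants. -/
def PP : SV →L[ℝ] SV := ∑ a, (ipL (eH a)).smulRight (eH a)

lemma PP_apply (f : SV) : PP f = ∑ a, ip (eH a) f • eH a := by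
  simp [PP]

/-! ### Collision interface -/

/-- The symmetrised collision operator `G f g = Γ(f,g) + Γ(g,f)` on Schwartz space, the linearised
operator `L`, and all the facts used by the modules M3, M4, M6. -/
structure CollOp where
  G : SV →ₗ[ℝ] SV →ₗ[ℝ] SV
  L : SV →L[ℝ] SV
  p : ℕ
  cont : Continuous fun q : SV × SV => G q.1 q.2
  symm : ∀ f g, G f g = G g f
  leib : ∀ j f g, ap j (G f g) = G (ap j f) g + G f (ap j g)
  hyd : ∀ f g, PP (G f g) = 0
  L_eq : ∀ f, L f = -G sqMS f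
  L_symm : ∀ f g, ip (L f) g = ip f (L g)
  gap : ∃ lam : ℝ, 0 < lam ∧ ∀ f, lam * ip (f - PP f) (f - PP f) ≤ ip (L f) f
  tri : ∃ C : ℝ, 0 < C ∧ ∀ g h f,
    |ip (G g h) f| ≤ C * √(nA p h) * √(ip (L g) g + ip g g) * √(ip (L f) f)
  wgt : ∃ C : ℝ, 0 < C ∧ ∀ f : SV, ∫ v, (1 + ‖v‖) ^ 8 * f v ^ 2 ≤ C * (ip (L f) f + ip f f)
  bdd : ∀ q, ∃ (d : ℕ) (C : ℝ), 0 < C ∧ ∀ f g, nA q (G f g) ≤ C * nA d f * nA d g
  inv : ∀ S ∈ HP 3, PP S = 0 → ∃ Φ, L Φ = S

/-- M2, final form: the interface is realised by the concrete operator. -/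
def CollStmt : Prop := ∃ Q : CollOp, ∀ (f g : SV) (v : E3), Q.G f g v = Coll.Gs f g v

/-- Squared dissipation norm. -/
def CollOp.dq (Q : CollOp) (f : SV) : ℝ := ip (Q.L f) f + ip f f

/-! ### Transport operator -/

/-- Coefficients of the transport operator at one time. -/
structure Fld where
  u : Ix → E3 → ℝ
  c : E3 → ℝ
  b0 : Ix → E3 → ℝ
  b1 : Ix → Ix → E3 → ℝ
  b2 : Ix → E3 → ℝ

/-- The velocity part `- (b0_j + b1_ij V_i + b2_i V_i V_j) a+_j`. -/
def Fld.vel (F : Fld) (x : E3) (f : SV) : SV :=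
  -(∑ j, F.b0 j x • ap j f + ∑ i, ∑ j, F.b1 i j x • mulV i (ap j f)
    + ∑ i, ∑ j, F.b2 i x • mulV i (mulV j (ap j f)))

/-- The transport operator `(u + c V) . grad_x - b_j(V) a+_j`. -/
def Fld.tr (F : Fld) (G : E3 → SV) (x : E3) : SV :=
  ∑ i, (F.u i x • dX i G x + F.c x • mulV i (dX i G x)) + F.vel x (G x)

/-- The source `b_j(V) V_j sqM`. -/
def Fld.src (F : Fld) (x : E3) : SV := -F.vel x sqMS

/-- Smooth periodic coefficients. -/
structure Fld.Reg (F : Fld) : Prop where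
  u : ∀ i, Sm (F.u i) ∧ Per (F.u i)
  c : Sm F.c ∧ Per F.c
  b0 : ∀ j, Sm (F.b0 j) ∧ Per (F.b0 j)
  b1 : ∀ i j, Sm (F.b1 i j) ∧ Per (F.b1 i j)
  b2 : ∀ i, Sm (F.b2 i) ∧ Per (F.b2 i)

/-- Coefficients depending continuously on time. -/
structure FldC (F : ℝ → Fld) : Prop where
  u : ∀ i, SmC fun s => (F s).u i
  c : SmC fun s => (F s).c
  b0 : ∀ j, SmC fun s => (F s).b0 j
  b1 : ∀ i j, SmC fun s => (F s).b1 i j
  b2 : ∀ i, SmC fun s => (F s).b2 i
  reg : ∀ s, (F s).Reg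

/-- `a` is a symbol of size `m` at the length scale `σ`, with constants `K`, from order `n0` on. -/
def SymBd (K : ℕ → ℝ) (n0 : ℕ) (σ m a : E3 → ℝ) : Prop :=
  ∀ w : List Ix, n0 ≤ w.length → ∀ x, σ x ^ w.length * |dXw w a x| ≤ K w.length * m x

/-- Symbol bounds of the coefficients (no bound on `u` and on its gradient is required). -/
structure Fld.Bd (F : Fld) (K : ℕ → ℝ) (σ μ : E3 → ℝ) : Prop where
  u : ∀ i, SymBd K 2 σ (fun x => μ x * σ x) (F.u i)
  c : SymBd K 0 σ (fun x => μ x * σ x) F.c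
  b0 : ∀ j, SymBd K 0 σ μ (F.b0 j)
  b1 : ∀ i j, SymBd K 0 σ μ (F.b1 i j)
  b2 : ∀ i, SymBd K 0 σ μ (F.b2 i)

/-- A positive smooth periodic weight that varies slowly at the scale `σ`. -/
structure Slow (K : ℝ) (σ a : E3 → ℝ) : Prop where
  sm : Sm a
  per : Per a
  pos : ∀ x, 0 < a x
  bd : ∀ i x, σ x * |dX i a x| ≤ K * a x

/-- Hypotheses on the weight `ω`, the length scale `σ`, the rate `μ`, the time derivatives `ωt`, `σt`
and the gain `γ`; `rep` is the repulsivity. -/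
structure WtBd (F : Fld) (K : ℕ → ℝ) (lam : ℝ) (ω σ μ ωt σt γ : E3 → ℝ) : Prop where
  hω : Slow (K 1) σ ω
  hσ : Slow (K 1) σ σ
  hμ : Slow (K 1) σ μ
  dω : ∀ x, ωt x + ∑ i, dX i (fun y => F.u i y * ω y) x + γ x ≤ K 0 * μ x * ω x
  rep : ∀ (x : E3) (ξ : Ix → ℝ), lam * μ x * σ x * ∑ i, ξ i ^ 2 ≤
    (-σt x - ∑ i, F.u i x * dX i σ x - cs * |F.c x| * √(∑ i, dX i σ x ^ 2)
        - cs * σ x * √(∑ i, dX i F.c x ^ 2)) * ∑ i, ξ i ^ 2
      + σ x * ∑ p, ∑ i, ξ p * ξ i * dX p (F.u i) x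

/-! ### Energies -/

/-- Sum over `j + m ≤ n` and over the words `u` of length `j`, with weight `θ^(j+m) σ^(2j)`. -/
def lev (n : ℕ) (θ σ : ℝ) (φ : List Ix → ℕ → ℝ) : ℝ :=
  ∑ j ∈ range (n + 1), ∑ m ∈ range (n + 1 - j), θ ^ (j + m) * σ ^ (2 * j) * ∑ u ∈ words j, φ u m

/-- Energy density (bilinear). -/
def bb (n : ℕ) (θ : ℝ) (σ : E3 → ℝ) (G H : E3 → SV) (x : E3) : ℝ :=
  lev n θ (σ x) fun u m => ip (dXw u G x) (RR m (dXw u H x))

/-- Dissipation density of the whole function. -/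
def YY (Q : CollOp) (n : ℕ) (θ : ℝ) (σ : E3 → ℝ) (G : E3 → SV) (x : E3) : ℝ :=
  lev n θ (σ x) fun u m => ∑ w ∈ words m, Q.dq (apW w (dXw u G x))

/-- Dissipation density of the non-hydrodynamic part. -/
def yy (Q : CollOp) (n : ℕ) (θ : ℝ) (σ : E3 → ℝ) (G : E3 → SV) (x : E3) : ℝ :=
  YY Q n θ σ (fun y => G y - PP (G y)) x

/-- Energy on the torus (bilinear). -/
def En (n : ℕ) (θ : ℝ) (ω σ : E3 → ℝ) (G H : E3 → SV) : ℝ :=
  tint fun x => ω x * bb n θ σ G H x

/-- M4, kinetic energy inequality.  `E'` is the time derivative of the energy. -/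
def M4Stmt : Prop :=
  ∀ (Q : CollOp) (K : ℕ → ℝ) (lam : ℝ), 0 < lam → ∃ n0 : ℕ, ∀ n, n0 ≤ n →
    ∃ θ A0 C c : ℝ, 0 < θ ∧ θ ≤ 1 ∧ 0 < C ∧ 0 < c ∧
      ∀ (ω ωt σ σt : ℝ → E3 → ℝ) (g g' : ℝ → E3 → SV), SmD ω ωt → SmD σ σt → SmD g g' →
        (∀ s, Per (g s)) → ∃ E' : ℝ → ℝ, Continuous E' ∧
          (∀ s, HasDerivAt (fun t => En n θ (ω t) (σ t) (g t) (g t)) (E' s) s) ∧
          ∀ (s : ℝ) (F : Fld) (μ γ k : E3 → ℝ), F.Reg → F.Bd K (σ s) μ →
            WtBd F K lam (ω s) (σ s) μ (ωt s) (σt s) γ → Continuous γ →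
            Sm k → Per k → SymBd K 0 (σ s) k k → (∀ x, A0 * μ x ≤ k x) →
            E' s + tint (fun x => γ x * bb n θ (σ s) (g s) (g s) x)
                + c * tint (fun x => ω s x * k x * yy Q n θ (σ s) (g s) x)
              ≤ C * tint (fun x => μ x * ω s x * ip (PP (g s x)) (PP (g s x)))
                + 2 * En n θ (ω s) (σ s)
                    (fun x => g' s x + F.tr (g s) x + k x • Q.L (g s x)) (g s)

/-- M4, hydrodynamic energy inequality (any `θ`). -/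
def M4hStmt : Prop :=
  ∀ (K : ℕ → ℝ) (lam : ℝ), 0 < lam → ∃ n0 : ℕ, ∀ n, n0 ≤ n → ∀ θ : ℝ, 0 < θ → θ ≤ 1 →
    ∃ C : ℝ, 0 < C ∧
      ∀ (ω ωt σ σt : ℝ → E3 → ℝ) (g g' : ℝ → E3 → SV), SmD ω ωt → SmD σ σt → SmD g g' →
        (∀ s, Per (g s)) → ∃ E' : ℝ → ℝ, Continuous E' ∧
          (∀ s, HasDerivAt (fun t => En n θ (ω t) (σ t) (g t) (g t)) (E' s) s) ∧
          ∀ (s : ℝ) (F : Fld) (μ γ : E3 → ℝ), F.Reg → F.Bd K (σ s) μ →
            WtBd F K lam (ω s) (σ s) μ (ωt s) (σt s) γ → Continuous γ →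
            (∀ x, PP (g s x) = g s x) →
            E' s + tint (fun x => γ x * bb n θ (σ s) (g s) (g s) x)
              ≤ C * tint (fun x => μ x * ω s x * ip (g s x) (g s x))
                + 2 * En n θ (ω s) (σ s) (fun x => g' s x + PP (F.tr (g s) x)) (g s)

/-- M4b, collision gain (pointwise). -/
def GainStmt : Prop :=
  ∀ (Q : CollOp) (K : ℕ → ℝ) (n : ℕ), ∃ θ0 c : ℝ, 0 < θ0 ∧ θ0 ≤ 1 ∧ 0 < c ∧
    ∀ θ, 0 < θ → θ ≤ θ0 → ∀ (σ k : E3 → ℝ) (G : E3 → SV), Sm k → Sm G → (∀ x, 0 < σ x) →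
      (∀ x, 0 ≤ k x) → SymBd K 0 σ k k → ∀ x,
        c * k x * yy Q n θ σ G x ≤ bb n θ σ (fun y => k y • Q.L (G y)) G x

/-- M4b, trilinear estimate (pointwise). -/
def GamStmt : Prop :=
  ∀ (Q : CollOp) (K : ℕ → ℝ) (n : ℕ) (θ : ℝ), 0 < θ → θ ≤ 1 → ∃ C : ℝ, 0 < C ∧
    ∀ (σ k : E3 → ℝ) (G₁ G₂ H : E3 → SV), Sm k → Sm G₁ → Sm G₂ → Sm H → (∀ x, 0 < σ x) →
      (∀ x, 0 ≤ k x) → SymBd K 0 σ k k → ∀ x,
        |bb n θ σ (fun y => k y • Q.G (G₁ y) (G₂ y)) H x| ≤ C * k x *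
          (√(bb (n / 2 + Q.p) 1 σ G₁ G₁ x) * √(YY Q n θ σ G₂ x)
            + √(bb (n / 2 + Q.p) 1 σ G₂ G₂ x) * √(YY Q n θ σ G₁ x)) * √(yy Q n θ σ H x)

/-- M4c, pointwise bound by the energy. -/
def SobStmt : Prop :=
  ∀ (K : ℝ) (N : ℕ) (θ : ℝ), 0 < θ → θ ≤ 1 → ∃ C : ℝ, 0 < C ∧
    ∀ (ω σ : E3 → ℝ) (G : E3 → SV), Slow K σ ω → Slow K σ σ → (∀ x, σ x ≤ K) → Sm G → Per G →
      ∀ x, σ x ^ dd * ω x * bb N 1 σ G G x ≤ C * En (N + dd) θ ω σ G G

end Pool.Agent.BoltzD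

end
end MrgPart1

-- ======== part 2: formerly Pool.Agent.BoltzD.Spec.Bg
section MrgPart2

/-!
Shared definitions of the Boltzmann project, part 2: profile, cut-off background, weights, and the
statements of the modules M1, MC, M3, M5, M6.
-/

set_option autoImplicit false

open MeasureTheory Pool.Agent.BoltzC Finset
open scoped ContDiff

noncomputable section

namespace Pool.Agent.BoltzD

variable [Dim]

/-- M1: the smooth imploding profile. -/
def M1Stmt : Prop :=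
  ∃ (r lam c0 : ℝ) (U : Ix → E3 → ℝ) (C : E3 → ℝ) (K : ℕ → ℝ),
    30 / 29 < r ∧ r < 3 / 2 ∧ 0 < lam ∧ 0 < c0 ∧ (∀ i, ContDiff ℝ ∞ (U i)) ∧ ContDiff ℝ ∞ C ∧
    (∀ y j, (r - 1) * U j y + ∑ i, (y i + U i y) * dX i (U j) y + (dd + 2) * C y * dX j C y = 0) ∧
    (∀ y, (r - 1) * C y + ∑ i, (y i + U i y) * dX i C y
      + (dd : ℝ)⁻¹ * C y * ∑ i, dX i (U i) y = 0) ∧
    (∀ (w : List Ix) j y,
      |dXw w (U j) y| ≤ K w.length * (1 + ‖y‖ ^ 2) ^ ((1 - r - w.length) / 2)) ∧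
    (∀ (w : List Ix) y,
      |dXw w C y| ≤ K w.length * (1 + ‖y‖ ^ 2) ^ ((1 - r - w.length) / 2)) ∧
    (∀ y, c0 * (1 + ‖y‖ ^ 2) ^ ((1 - r) / 2) ≤ C y) ∧
    ∀ (y : E3) (ξ : Ix → ℝ), lam * ∑ i, ξ i ^ 2 ≤
      (1 - cs * √(∑ i, dX i C y ^ 2)) * ∑ i, ξ i ^ 2 + ∑ p, ∑ i, ξ p * ξ i * dX p (U i) y

/-- The closed box of half side `a`. -/
def box (a : ℝ) (x : E3) : Prop := ∀ i, |x i| ≤ a

/-- Periodic cut-off data: `pi` is the identity near the origin, `chi` a cut-off, `rho2` the squared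
distance to the lattice near the lattice. -/
structure Cut where
  pi : E3 → E3
  chi : E3 → ℝ
  rho2 : E3 → ℝ
  cd_pi : ContDiff ℝ ∞ pi
  cd_chi : ContDiff ℝ ∞ chi
  cd_rho2 : ContDiff ℝ ∞ rho2
  per_pi : Per pi
  per_chi : Per chi
  per_rho2 : Per rho2
  pi_eq : ∀ x, box (1 / 4) x → pi x = x
  rho2_eq : ∀ x, box (1 / 4) x → rho2 x = ‖x‖ ^ 2
  chi_one : ∀ x, box (1 / 8) x → chi x = 1
  chi_zero : ∀ x, box (1 / 2) x → ¬box (1 / 5) x → chi x = 0
  chi_nonneg : ∀ x, 0 ≤ chi x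
  chi_le : ∀ x, chi x ≤ 1
  rho2_ge : ∀ x, box (1 / 2) x → ‖x‖ ^ 2 / 12 ≤ rho2 x
  rho2_le : ∀ x, rho2 x ≤ dd

/-- Time derivative of a scalar field. -/
def dS (a : ℝ → E3 → ℝ) (s : ℝ) (x : E3) : ℝ := deriv (fun t => a t x) s

/-- Background: the physical velocity `u` and thermal speed `C` as functions of `(s, x)`,
where `dt/ds = exp (-r s)`. -/
structure BgD where
  r : ℝ
  nu : ℝ
  cut : Cut
  u : Ix → ℝ → E3 → ℝ
  C : ℝ → E3 → ℝ

namespace BgD

variable (B : BgD)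

/-- Growth rate of the collision frequency. -/
def kap : ℝ := (dd + 28) * (B.r - 1) - B.r

/-- Exponent of the second weight. -/
def eta : ℝ := (B.kap + B.r) / 2

/-- The length scale. -/
def Lam (s : ℝ) (x : E3) : ℝ := √(Real.exp (-2 * s) + B.cut.rho2 x)

/-- The rate. -/
def mu (s : ℝ) (x : E3) : ℝ := Real.exp (-B.r * s) * B.Lam s x ^ (-B.r)

/-- The weights of the two energies (`a = 0` and `a = eta`). -/
def om (a s : ℝ) (x : E3) : ℝ := Real.exp (-2 * a * s) * B.Lam s x ^ (-(dd : ℝ) - 2 * a)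

/-- The length scale attached to a derivative. -/
def sig (s : ℝ) (x : E3) : ℝ :=
  Real.exp (-s) + √(Real.exp (-2 * s) + B.nu ^ 2 * B.cut.rho2 x)

/-- The collision frequency divided by the amplitude `A`. -/
def k1 (s : ℝ) (x : E3) : ℝ := Real.exp (-B.r * s) * B.C s x ^ (dd + 28)

/-- Material derivative. -/
def mat (a : ℝ → E3 → ℝ) (s : ℝ) (x : E3) : ℝ :=
  dS a s x + ∑ i, Real.exp (-B.r * s) * B.u i s x * dX i (a s) x

/-- The coefficients of the transport operator. -/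
def fld (s : ℝ) : Fld where
  u i x := Real.exp (-B.r * s) * B.u i s x
  c x := Real.exp (-B.r * s) * B.C s x
  b0 j x := -B.mat (B.u j) s x / B.C s x
  b1 i j x := -(Real.exp (-B.r * s) * dX i (B.u j s) x)
    - if i = j then B.mat B.C s x / B.C s x else 0
  b2 i x := -(Real.exp (-B.r * s) * dX i (B.C s) x)

/-- Rescaled and periodised copy of a function of `y`. -/
def per (φ : E3 → SV) (s : ℝ) (x : E3) : SV := B.cut.chi x • φ (Real.exp s • B.cut.pi x)

/-- The energy with weight `om a`. -/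
def E (n : ℕ) (θ a s : ℝ) (G H : E3 → SV) : ℝ := En n θ (B.om a s) (B.sig s) G H

/-- Everything that the other modules may use about the background. -/
structure Ok : Prop where
  r_gt : 30 / 29 < B.r
  r_lt : B.r < 3 / 2
  nu_pos : 0 < B.nu
  nu_le : B.nu ≤ 1
  cd_u : ∀ i, ContDiff ℝ ∞ fun p : ℝ × E3 => B.u i p.1 p.2
  cd_C : ContDiff ℝ ∞ fun p : ℝ × E3 => B.C p.1 p.2
  per_u : ∀ i s, Per (B.u i s)
  per_C : ∀ s, Per (B.C s)
  C_pos : ∀ s x, 0 < B.C s x
  sm_u : ∀ i, SmD (B.u i) (dS (B.u i))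
  sm_C : SmD B.C (dS B.C)
  sm_om : ∀ a, SmD (B.om a) (dS (B.om a))
  sm_sig : SmD B.sig (dS B.sig)
  sm_mu : SmC B.mu
  sm_k1 : SmC B.k1
  fldC : FldC B.fld
  C_ge : ∃ c0 : ℝ, 0 < c0 ∧ ∀ s, 0 ≤ s → ∀ x, c0 * B.Lam s x ^ (1 - B.r) ≤ B.C s x
  sym : ∃ K : ℕ → ℝ, ∀ s, 0 ≤ s →
    (∀ i, SymBd K 0 (B.sig s) (fun x => B.Lam s x ^ (1 - B.r)) (B.u i s)) ∧
    SymBd K 0 (B.sig s) (fun x => B.Lam s x ^ (1 - B.r)) (B.C s) ∧
    (∀ i, SymBd K 0 (B.sig s) (fun x => B.mu s x * B.Lam s x ^ (1 - B.r)) (dS (B.u i) s)) ∧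
    SymBd K 0 (B.sig s) (fun x => B.mu s x * B.Lam s x ^ (1 - B.r)) (dS B.C s)
  hyp : ∃ (K : ℕ → ℝ) (lam s1 : ℝ), 0 < lam ∧ 0 ≤ s1 ∧ ∀ s, s1 ≤ s →
    (B.fld s).Bd K (B.sig s) (B.mu s) ∧ SymBd K 0 (B.sig s) (B.k1 s) (B.k1 s) ∧
    ∀ a, 0 ≤ a → a ≤ B.eta → WtBd (B.fld s) K lam (B.om a s) (B.sig s) (B.mu s)
      (dS (B.om a) s) (dS B.sig s) fun x => 2 * a * B.om a s x
  euler_u : ∀ j s x, box (1 / 10) x →
    B.mat (B.u j) s x + (dd + 2) * (Real.exp (-B.r * s) * B.C s x) * dX j (B.C s) x = 0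
  euler_C : ∀ s x, box (1 / 10) x →
    B.mat B.C s x + (dd : ℝ)⁻¹ * B.C s x * ∑ i, Real.exp (-B.r * s) * dX i (B.u i s) x = 0
  scal : ∃ (U : Ix → E3 → ℝ) (C : E3 → ℝ), (∀ i, ContDiff ℝ ∞ (U i)) ∧ ContDiff ℝ ∞ C ∧
    ∀ s x, box (1 / 8) x → (∀ i, B.u i s x = Real.exp ((B.r - 1) * s) * U i (Real.exp s • x)) ∧
      B.C s x = Real.exp ((B.r - 1) * s) * C (Real.exp s • x)

variable {B}

lemma Ok.kap_pos (h : B.Ok) : 0 < B.kap := by
  have := h.r_gt
  have := mul_le_mul_of_nonneg_right two_le_dr (show 0 ≤ B.r - 1 by linarith)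
  unfold kap
  linarith

lemma Ok.one_lt_r (h : B.Ok) : 1 < B.r := by linarith [h.r_gt]

lemma Ok.eta_pos (h : B.Ok) : 0 < B.eta := by
  have := h.kap_pos
  have := h.one_lt_r
  unfold eta
  linarith

lemma two_eta (B : BgD) : 2 * B.eta = B.kap + B.r := by unfold eta; ring

end BgD

/-- MC1: the background exists. -/
def BgStmt : Prop := M1Stmt → ∃ B : BgD, B.Ok

/-- MC2: corrector `gc` and remaining error `R`. -/
def CorrStmt : Prop :=
  ∀ (B : BgD), B.Ok → ∀ Q : CollOp, ∃ gc gc' R : ℝ → E3 → SV, SmD gc gc' ∧ SmC R ∧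
    (∀ s, Per (gc s)) ∧ (∀ s, Per (gc' s)) ∧ (∀ s, Per (R s)) ∧
    (∀ s x, (B.fld s).src x = B.k1 s x • Q.L (gc s x) + R s x) ∧
    ∀ n δ, 0 < δ → δ ≤ B.kap → δ < B.eta → ∃ C : ℝ, 0 < C ∧ ∀ s, 0 ≤ s →
      B.E n 1 0 s (gc s) (gc s) ≤ C ∧
      B.E n 1 B.eta s (gc s) (gc s) ≤ C * Real.exp (-2 * δ * s) ∧
        B.E n 1 0 s (fun x => gc' s x + (B.fld s).tr (gc s) x)
          (fun x => gc' s x + (B.fld s).tr (gc s) x) ≤ C * Real.exp (-2 * min (B.kap / 2) B.r * s) ∧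
        B.E n 1 B.eta s (fun x => gc' s x + (B.fld s).tr (gc s) x)
          (fun x => gc' s x + (B.fld s).tr (gc s) x) ≤ C * Real.exp (-2 * δ * s) ∧
      ∀ a, a = 0 ∨ a = B.eta →
        B.E n 1 a s (R s) (R s) ≤ C * Real.exp (-2 * (B.r + a) * s)

/-- Compactly supported smooth hydrodynamic functions of `y`. -/
def InD (φ : E3 → SV) : Prop := Sm φ ∧ HasCompactSupport φ ∧ ∀ y, PP (φ y) = φ y

/-- MK: the finite rank damping. -/
def KStmt : Prop :=
  ∀ (B : BgD), B.Ok → ∀ (n : ℕ) (θ C1 ε : ℝ), dd + 1 ≤ n → 0 < θ → θ ≤ 1 → 0 < ε →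
    ∃ (m : ℕ) (φ : Fin m → E3 → SV) (C0 C s1 : ℝ), 0 < C0 ∧ 0 < C ∧ (∀ i, InD (φ i)) ∧
      ∀ s, s1 ≤ s → (∀ i, B.E n θ B.eta s (B.per (φ i) s) (B.per (φ i) s) ≤ C) ∧
        ∀ G : E3 → SV, Sm G → Per G →
          (∀ i, B.E n θ 0 s (B.per (φ i) s) G ^ 2 ≤ C * B.E n θ B.eta s G G) ∧
          C1 * tint (fun x => B.mu s x * B.om B.eta s x * ip (PP (G x)) (PP (G x)))
            ≤ ε * B.E n θ B.eta s G G + C0 * ∑ i, B.E n θ B.eta s (B.per (φ i) s) G ^ 2

/-- M3, kinetic solver with the finite rank term written with the energy form. -/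
def M3kStmt : Prop :=
  ∀ (Q : CollOp) (F : ℝ → Fld) (k wt σ : ℝ → E3 → ℝ) (n m : ℕ) (θ C0 s0 : ℝ)
    (φ : Fin m → ℝ → E3 → SV) (S : ℝ → E3 → SV) (g0 : E3 → SV),
    FldC F → SmC k → (∀ s, Per (k s)) → (∀ s x, 0 < k s x) → SmC wt → (∀ s, Per (wt s)) →
    SmC σ → (∀ s, Per (σ s)) → (∀ i, SmC (φ i)) → (∀ i s, Per (φ i s)) →
    SmC S → (∀ s, Per (S s)) → Sm g0 → Per g0 →
    ∃ g g' : ℝ → E3 → SV, SmD g g' ∧ (∀ s, Per (g s)) ∧ (∀ s, Per (g' s)) ∧ g s0 = g0 ∧
      ∀ s, s0 ≤ s → ∀ x, g' s x + (F s).tr (g s) x + k s x • Q.L (g s x)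
        + ∑ i, (C0 * En n θ (wt s) (σ s) (φ i s) (g s)) • φ i s x = S s x

/-- M3, hydrodynamic solver. -/
def M3hStmt : Prop :=
  ∀ (F : ℝ → Fld) (s0 : ℝ) (S : ℝ → E3 → SV) (W0 : E3 → SV),
    FldC F → SmC S → (∀ s, Per (S s)) → (∀ s x, PP (S s x) = S s x) →
    Sm W0 → Per W0 → (∀ x, PP (W0 x) = W0 x) →
    ∃ W W' : ℝ → E3 → SV, SmD W W' ∧ (∀ s, Per (W s)) ∧ (∀ s, Per (W' s)) ∧
      (∀ s x, PP (W s x) = W s x) ∧ W s0 = W0 ∧
      ∀ s, s0 ≤ s → ∀ x, W' s x + PP ((F s).tr (W s) x) = S s x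

/-- M5: choice of the finitely many free parameters for the linearised Euler system. -/
def M5Stmt : Prop :=
  ∀ (B : BgD), B.Ok → ∃ n0 : ℕ, ∀ n, n0 ≤ n → ∀ θ : ℝ, 0 < θ → θ ≤ 1 →
    ∀ (m : ℕ) (φ : Fin m → E3 → SV), (∀ i, InD (φ i)) → ∀ δ1 : ℝ, 0 < δ1 → δ1 < B.eta →
    ∃ δ0, δ0 < δ1 ∧ ∀ δ, δ0 < δ → δ < δ1 →
      ∃ (m' : ℕ) (ψ : Fin m' → E3 → SV) (C s2 : ℝ), 0 < C ∧ (∀ i, InD (ψ i)) ∧ ∀ s0, s2 ≤ s0 →
        ∃ aa : C(ℝ, Fin m → ℝ) →ₗ[ℝ] (Fin m' → ℝ), ∀ (c : C(ℝ, Fin m → ℝ)) (M : ℝ), 0 ≤ M →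
          (∀ s, s0 ≤ s → ∀ i, |c s i| ≤ M * Real.exp (-δ * s)) → (∀ i, |aa c i| ≤ C * M) ∧
          ∀ W W' : ℝ → E3 → SV, SmD W W' → (∀ s, Per (W s)) → (∀ s x, PP (W s x) = W s x) →
            (∀ x, W s0 x = ∑ i, aa c i • B.per (ψ i) s0 x) →
            (∀ s, s0 ≤ s → ∀ x,
              W' s x + PP ((B.fld s).tr (W s) x) = ∑ i, c s i • B.per (φ i) s x) →
            ∀ s, s0 ≤ s → B.E n θ B.eta s (W s) (W s) ≤ C * M ^ 2 * Real.exp (-2 * δ * s) ∧
              B.E n θ 0 s (W s) (W s) ≤ C * M ^ 2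

/-- Velocity cut-off of the collision invariants. -/
def VCutStmt : Prop :=
  ∀ (n : ℕ) (ε : ℝ), 0 < ε → ∃ (et : Hx → SV) (C : ℝ), 0 < C ∧
    (∀ a, nA n (eH a - et a) ≤ ε) ∧ ∀ a V, |et a V| ≤ C * sqM V

/-- The polynomial `b_j(V)`. -/
def Fld.bj (F : Fld) (x V : E3) (j : Ix) : ℝ :=
  F.b0 j x + ∑ i, F.b1 i j x * V i + ∑ i, F.b2 i x * V i * V j

/-- A classical solution `G = sqM + g` of the rescaled equation on `[s0, ∞)`. -/
structure Lim (F : ℝ → Fld) (k : ℝ → E3 → ℝ) (s0 ε : ℝ) (p : ℕ) (g : ℝ → E3 → E3 → ℝ) : Prop where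
  c1 : ContDiff ℝ 1 fun q : ℝ × E3 × E3 => g q.1 q.2.1 q.2.2
  per : ∀ s V, Per fun x => g s x V
  nice : ∀ s, s0 ≤ s → ∀ x, Coll.Nice p ε (g s x)
  dec : ∀ s1, ∃ K, ∀ s ∈ Set.Icc s0 s1, ∀ x V : E3, (1 + ‖V‖) ^ p *
    ‖fderiv ℝ (fun q : ℝ × E3 × E3 => g q.1 q.2.1 q.2.2) (s, x, V)‖ ≤ K
  eqn : ∀ s, s0 ≤ s → ∀ x V : E3,
    deriv (fun t => g t x V) s
      + ∑ i, ((F s).u i x + (F s).c x * V i) * fderiv ℝ (fun y => g s y V) x (ev i)
      - ∑ j, (F s).bj x V j * (V j / 2 * (sqM V + g s x V)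
          - fderiv ℝ (fun W => sqM W + g s x W) V (ev j))
      = k s x * Coll.Gam (fun W => sqM W + g s x W) (fun W => sqM W + g s x W) V
  init_smooth : ContDiff ℝ ∞ fun q : E3 × E3 => g s0 q.1 q.2
  init_small : ∀ x V, |g s0 x V| ≤ 1 / 2 * sqM V

/-- M6c: the fixed point. -/
def PicardStmt : Prop :=
  ∀ (B : BgD), B.Ok → ∀ (p : ℕ) (ε : ℝ), 0 < ε → ∃ (A s0 : ℝ) (g : ℝ → E3 → E3 → ℝ),
    0 < A ∧ 0 ≤ s0 ∧ Lim B.fld (fun s x => A * B.k1 s x) s0 ε p g

/-- M6b: positivity. -/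
def PosStmt : Prop :=
  ∃ (ε0 : ℝ) (p : ℕ), 0 < ε0 ∧ ∀ (F : ℝ → Fld) (k : ℝ → E3 → ℝ) (s0 : ℝ) (g : ℝ → E3 → E3 → ℝ),
    FldC F → SmC k → (∀ s, Per (k s)) → (∀ s x, 0 < k s x) → Lim F k s0 ε0 p g →
    ∀ s, s0 ≤ s → ∀ x V, 0 ≤ sqM V + g s x V

/-- M6a: back to the physical variables. -/
def FinalStmt : Prop :=
  ∃ (ε1 : ℝ) (p : ℕ), 0 < ε1 ∧ ∀ (B : BgD), B.Ok → ∀ (A s0 : ℝ) (g : ℝ → E3 → E3 → ℝ),
    0 < A → 0 ≤ s0 → Lim B.fld (fun s x => A * B.k1 s x) s0 ε1 p g →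
    (∀ s, s0 ≤ s → ∀ x V, 0 ≤ sqM V + g s x V) → Stmt.MainD dd

lemma Lim.mono {F : ℝ → Fld} {k : ℝ → E3 → ℝ} {s0 ε ε' : ℝ} {p p' : ℕ} {g : ℝ → E3 → E3 → ℝ}
    (h : Lim F k s0 ε p g) (hε : ε ≤ ε') (hp : p' ≤ p) : Lim F k s0 ε' p' g := by
  have hw : ∀ V : E3, (1 + ‖V‖) ^ p' ≤ (1 + ‖V‖) ^ p := fun V =>
    pow_le_pow_right₀ (by linarith [norm_nonneg V]) hp
  refine ⟨h.c1, h.per, fun s hs x => ⟨fun v => ?_, fun v z hz => ?_⟩, fun s1 => ?_, h.eqn,
    h.init_smooth, h.init_small⟩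
  · exact (mul_le_mul_of_nonneg_right (hw v) (abs_nonneg _)).trans (((h.nice s hs x).1 v).trans hε)
  · exact (mul_le_mul_of_nonneg_right (hw v) (abs_nonneg _)).trans
      (((h.nice s hs x).2 v z hz).trans (mul_le_mul_of_nonneg_right hε (norm_nonneg _)))
  · obtain ⟨K, hK⟩ := h.dec s1
    exact ⟨K, fun s hs x V =>
      (mul_le_mul_of_nonneg_right (hw V) (norm_nonneg _)).trans (hK s hs x V)⟩

/-- Assembly of the last four modules. -/
theorem main_of (h1 : M1Stmt) (h2 : BgStmt) (h3 : PicardStmt) (h4 : PosStmt) (h5 : FinalStmt) :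
    Stmt.MainD dd := by
  obtain ⟨B, hB⟩ := h2 h1
  obtain ⟨ε0, p0, hε0, h4⟩ := h4
  obtain ⟨ε1, p1, hε1, h5⟩ := h5
  obtain ⟨A, s0, g, hA, hs0, hg⟩ := h3 B hB (max p0 p1) (min ε0 ε1) (lt_min hε0 hε1)
  have hC := hB.C_pos
  refine h5 B hB A s0 g hA hs0 (hg.mono (min_le_right _ _) (le_max_right _ _))
    (h4 B.fld _ s0 g hB.fldC (hB.sm_k1.const_smul A) (fun s i x => ?_) (fun s x => ?_)
      (hg.mono (min_le_left _ _) (le_max_left _ _)))
  · simp only [BgD.k1, hB.per_C s i x]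
  · have := hC s x
    unfold BgD.k1
    positivity

end Pool.Agent.BoltzD

end
end MrgPart2

-- ======== part 3: formerly Pool.Agent.BoltzD.Calc.Complete
section MrgPart3

/-! Schwartz space is complete; limits and sums controlled by the norms `nA`. -/

set_option autoImplicit false
set_option linter.unusedSectionVars false

open Filter Topology MeasureTheory SchwartzMap Pool.Agent.BoltzC
open scoped ContDiff

noncomputable section

namespace Pool.Agent.BoltzD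

variable [Dim]

section General

variable {D G : Type*} [NormedAddCommGroup D] [NormedSpace ℝ D] [NormedAddCommGroup G]
  [NormedSpace ℝ G] [CompleteSpace G]

lemma schwartz_exists_limit (u : ℕ → SchwartzMap D G)
    (h : ∀ (k n : ℕ) (ε : ℝ), 0 < ε → ∃ N, ∀ a ≥ N, ∀ b ≥ N,
      SchwartzMap.seminorm ℝ k n (u a - u b) ≤ ε) : ∃ g, Tendsto u atTop (𝓝 g) := by
  have hsub : ∀ (f g : SchwartzMap D G) (m : ℕ) (x : D), iteratedFDeriv ℝ m (f - g : SchwartzMap D G) x =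
      iteratedFDeriv ℝ m f x - iteratedFDeriv ℝ m g x := fun f g m x =>
    iteratedFDeriv_sub_apply (f.smooth m).contDiffAt (g.smooth m).contDiffAt
  have hc : ∀ m x, CauchySeq fun a => iteratedFDeriv ℝ m (u a) x := by
    intro m x
    rw [Metric.cauchySeq_iff]
    intro ε hε
    obtain ⟨N, hN⟩ := h 0 m (ε / 2) (by positivity)
    refine ⟨N, fun a ha b hb => ?_⟩
    rw [dist_eq_norm, ← hsub]
    have := (norm_iteratedFDeriv_le_seminorm ℝ (u a - u b) m x).trans (hN a ha b hb)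
    linarith
  choose p hp using fun x m => cauchySeq_tendsto_of_complete (hc m x)
  have key : ∀ (k m : ℕ) (ε : ℝ), 0 < ε → ∃ N, ∀ a ≥ N, ∀ x,
      ‖x‖ ^ k * ‖iteratedFDeriv ℝ m (u a) x - p x m‖ ≤ ε := by
    intro k m ε hε
    obtain ⟨N, hN⟩ := h k m ε hε
    refine ⟨N, fun a ha x => ?_⟩
    have h1 : Tendsto (fun b => ‖x‖ ^ k * ‖iteratedFDeriv ℝ m (u a) x - iteratedFDeriv ℝ m (u b) x‖)
        atTop (𝓝 (‖x‖ ^ k * ‖iteratedFDeriv ℝ m (u a) x - p x m‖)) :=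
      ((tendsto_const_nhds.sub (hp x m)).norm).const_mul _
    refine le_of_tendsto h1 ?_
    filter_upwards [eventually_ge_atTop N] with b hb
    rw [← hsub]
    exact (le_seminorm ℝ k m _ x).trans (hN a ha b hb)
  have hunif : ∀ m, TendstoUniformly (fun a x => iteratedFDeriv ℝ m (u a) x) (fun x => p x m)
      atTop := by
    intro m
    rw [Metric.tendstoUniformly_iff]
    intro ε hε
    obtain ⟨N, hN⟩ := key 0 m (ε / 2) (by positivity)
    filter_upwards [eventually_ge_atTop N] with a ha x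
    have := hN a ha x
    rw [pow_zero, one_mul] at this
    rw [dist_comm, dist_eq_norm]
    linarith
  have hT : HasFTaylorSeriesUpTo ∞ (fun x => (p x 0).curry0) p := by
    rw [hasFTaylorSeriesUpTo_top_iff' le_rfl]
    refine ⟨fun _ => rfl, fun m x => ?_⟩
    refine hasFDerivAt_of_tendstoUniformly (l := atTop)
      (f := fun a y => iteratedFDeriv ℝ m (u a) y)
      (f' := fun a y => (iteratedFDeriv ℝ (m + 1) (u a) y).curryLeft)
      (g' := fun y => (p y (m + 1)).curryLeft) ?_ (fun a y => ?_) (fun y => hp y m) x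
    · exact (continuousMultilinearCurryLeftEquiv ℝ (fun _ : Fin (m + 1) => D)
        G).isometry.uniformContinuous.comp_tendstoUniformly (hunif (m + 1))
    · exact ((u a).smooth ⊤).ftaylorSeries.fderiv m (by exact_mod_cast ENat.natCast_lt_top m) y
  have hD : ∀ m x, iteratedFDeriv ℝ m (fun x => (p x 0).curry0) x = p x m := fun m x =>
    (hT.eq_iteratedFDeriv (by exact_mod_cast le_top) x).symm
  let g : SchwartzMap D G :=
    { toFun := fun x => (p x 0).curry0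
      smooth' := hT.contDiff
      decay' := fun k m => by
        obtain ⟨N, hN⟩ := key k m 1 one_pos
        refine ⟨SchwartzMap.seminorm ℝ k m (u N) + 1, fun x => ?_⟩
        rw [hD]
        have h1 := hN N le_rfl x
        have h2 := le_seminorm ℝ k m (u N) x
        have h3 : ‖p x m‖ ≤ ‖iteratedFDeriv ℝ m (u N) x‖ + ‖iteratedFDeriv ℝ m (u N) x - p x m‖ := by
          have := norm_sub_le (iteratedFDeriv ℝ m (u N) x) (iteratedFDeriv ℝ m (u N) x - p x m)
          simpa using this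
        have h4 := mul_le_mul_of_nonneg_left h3 (pow_nonneg (norm_nonneg x) k)
        linarith }
  refine ⟨g, ?_⟩
  rw [(schwartz_withSeminorms ℝ D G).tendsto_nhds]
  rintro ⟨k, m⟩ ε hε
  obtain ⟨N, hN⟩ := key k m (ε / 2) (by positivity)
  filter_upwards [eventually_ge_atTop N] with a ha
  have : SchwartzMap.seminorm ℝ k m (u a - g) ≤ ε / 2 := by
    refine seminorm_le_bound ℝ k m _ (by positivity) fun x => ?_
    rw [hsub]
    have : iteratedFDeriv ℝ m g x = p x m := hD m x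
    rw [this]
    exact hN a ha x
  exact lt_of_le_of_lt this (by linarith)

instance schwartzCompleteSpace : CompleteSpace (SchwartzMap D G) := by
  have : (uniformity (SchwartzMap D G)).IsCountablyGenerated :=
    IsUniformAddGroup.uniformity_countably_generated
  refine UniformSpace.complete_of_cauchySeq_tendsto fun u hu => schwartz_exists_limit u ?_
  intro k n ε hε
  have h1 := ((IsUniformAddGroup.cauchy_map_iff_tendsto atTop u).1 hu).2
  have h2 := ((schwartz_withSeminorms ℝ D G).tendsto_nhds _ _).1 h1 (k, n) ε hε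
  rw [prod_atTop_atTop_eq, eventually_atTop] at h2
  obtain ⟨N, hN⟩ := h2
  refine ⟨max N.1 N.2, fun a ha b hb => ?_⟩
  have := hN (a, b) ⟨le_of_max_le_left ha, le_of_max_le_right hb⟩
  simpa using this.le

end General

/-- A sequence that is Cauchy for every norm `nA` converges in Schwartz space. -/
lemma exists_limit_of_nA (u : ℕ → SV)
    (h : ∀ (m : ℕ) (ε : ℝ), 0 < ε → ∃ N, ∀ a ≥ N, ∀ b ≥ N, nA m (u a - u b) ≤ ε) :
    ∃ g, Tendsto u atTop (𝓝 g) := by
  refine schwartz_exists_limit u fun k n ε hε => ?_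
  obtain ⟨C, hC, hb⟩ := seminorm_le_sqrt_nA k n
  obtain ⟨N, hN⟩ := h (k + n + dd) ((ε / C) ^ 2) (by positivity)
  refine ⟨N, fun a ha b hb' => (hb _).trans ?_⟩
  have := Real.sqrt_le_sqrt (hN a ha b hb')
  rw [Real.sqrt_sq (by positivity)] at this
  calc C * √(nA (k + n + dd) (u a - u b)) ≤ C * (ε / C) := by gcongr
    _ = ε := by field_simp

/-- A sequence that is Cauchy in `L²` and bounded in every norm `nA` converges in Schwartz space. -/
lemma exists_limit_of_bdd (u : ℕ → SV) (hb : ∀ m, ∃ C, ∀ a, nA m (u a) ≤ C)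
    (h : ∀ ε : ℝ, 0 < ε → ∃ N, ∀ a ≥ N, ∀ b ≥ N, nA 0 (u a - u b) ≤ ε) :
    ∃ g, Tendsto u atTop (𝓝 g) := by
  refine exists_limit_of_nA u fun m => ?_
  induction m with
  | zero => exact h
  | succ m ih =>
    intro ε hε
    obtain ⟨C, hC⟩ := hb (m + 2)
    have hC0 : 0 ≤ C := (nA_nonneg _ _).trans (hC 0)
    obtain ⟨N, hN⟩ := ih (ε ^ 2 / (4 * C + 1)) (by positivity)
    refine ⟨N, fun a ha b hb' => (nA_interp m _).trans ?_⟩
    have h1 : nA (m + 2) (u a - u b) ≤ 4 * C + 1 := by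
      have := nA_sub_le (m + 2) (u a) (u b)
      linarith [hC a, hC b]
    calc √(nA m (u a - u b)) * √(nA (m + 2) (u a - u b))
        ≤ √(ε ^ 2 / (4 * C + 1)) * √(4 * C + 1) := by
          gcongr
          exact hN a ha b hb'
      _ = ε := by
          rw [← Real.sqrt_mul (by positivity), div_mul_cancel₀ _ (by positivity),
            Real.sqrt_sq hε.le]

section Sums

variable {F : Type*} [AddCommGroup F] [Module ℝ F] [UniformSpace F] [IsUniformAddGroup F]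
  [ContinuousSMul ℝ F] [LocallyConvexSpace ℝ F]

/-- Absolute summability in every continuous seminorm gives summability. -/
lemma summable_of_seminorm [CompleteSpace F] {ι : Type*} {f : ι → F}
    (h : ∀ p : Seminorm ℝ F, Continuous p → Summable fun i => p (f i)) : Summable f := by
  rw [summable_iff_vanishing]
  intro e he
  have hW := PolynormableSpace.withSeminorms ℝ F
  obtain ⟨⟨S, r⟩, hr, hsub⟩ := hW.hasBasis_zero_ball.mem_iff.1 he
  set q : Seminorm ℝ F := S.sup fun p : {p : Seminorm ℝ F // Continuous p} => p.1 with hq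
  have hqc : Continuous q := Seminorm.continuous_finsetSup fun p _ => p.2
  obtain ⟨s, hs⟩ := summable_iff_vanishing_norm.1 (h q hqc) r hr
  refine ⟨s, fun t ht => hsub ?_⟩
  rw [Seminorm.mem_ball_zero]
  refine lt_of_le_of_lt ?_ (hs t ht)
  exact (Finset.le_sum_of_subadditive q (map_zero q).le (map_add_le_add q) t f).trans
    (le_abs_self _)

/-- A continuous seminorm of a sum is at most the sum of bounds. -/
lemma seminorm_hasSum_le {ι : Type*} {f : ι → F} {a : F} (hf : HasSum f a) (p : Seminorm ℝ F)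
    (hp : Continuous p) {b : ι → ℝ} {B : ℝ} (hb : HasSum b B) (h : ∀ i, p (f i) ≤ b i) :
    p a ≤ B := by
  refine le_of_tendsto_of_tendsto' ((hp.tendsto a).comp hf) hb fun s => ?_
  exact (Finset.le_sum_of_subadditive p (map_zero p).le (map_add_le_add p) s f).trans
    (Finset.sum_le_sum fun i _ => h i)

end Sums

end Pool.Agent.BoltzD

end
end MrgPart3

-- ======== part 4: formerly Pool.Agent.BoltzD.Calc.HermC
section MrgPart4

/-! Completeness of the Hermite functions in `L²`. -/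

set_option autoImplicit false

open Filter Topology MeasureTheory SchwartzMap Pool.Agent.BoltzC Complex

noncomputable section

namespace Pool.Agent.BoltzD

variable [Dim]

/-- An integrable function with vanishing Fourier transform vanishes. -/
lemma ae_zero_of_char {φ : E → ℝ} (hφ : Integrable φ)
    (h : ∀ ξ : E, ∫ v, (φ v : ℂ) * cexp ((inner ℝ v ξ : ℝ) * I) = 0) : φ =ᵐ[volume] 0 := by
  have hm : AEMeasurable φ volume := hφ.aestronglyMeasurable.aemeasurable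
  have := isFiniteMeasure_withDensity_ofReal hφ.hasFiniteIntegral
  have := isFiniteMeasure_withDensity_ofReal hφ.neg.hasFiniteIntegral
  have hint : ∀ {ψ : E → ℝ}, Integrable ψ → ∀ ξ : E,
      Integrable fun v => ψ v • cexp ((inner ℝ v ξ : ℝ) * I) := by
    intro ψ hψ ξ
    refine hψ.smul_of_top_left (β := ℂ) (memLp_top_of_bound (C := 1) ?_ ?_)
    · exact Continuous.aestronglyMeasurable (by fun_prop)
    · exact Eventually.of_forall fun v => by rw [Complex.norm_exp_ofReal_mul_I]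
  have key : volume.withDensity (fun v => ENNReal.ofReal (φ v)) =
      volume.withDensity (fun v => ENNReal.ofReal ((-φ) v)) := by
    refine Measure.ext_of_charFun (funext fun ξ => ?_)
    rw [charFun_apply, charFun_apply,
      integral_withDensity_eq_integral_toReal_smul₀ hm.ennreal_ofReal (by simp),
      integral_withDensity_eq_integral_toReal_smul₀ hm.neg.ennreal_ofReal (by simp),
      ← sub_eq_zero, ← h ξ]
    simp only [ENNReal.toReal_ofReal']
    rw [← integral_sub (hint hφ.pos_part ξ) (hint hφ.neg.pos_part ξ)]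
    congr 1
    funext v
    rw [← sub_smul, Pi.neg_apply, max_zero_sub_max_neg_zero_eq_self, Complex.real_smul]
  have h2 := (withDensity_eq_iff_of_sigmaFinite hm.ennreal_ofReal hm.neg.ennreal_ofReal).1 key
  filter_upwards [h2] with v hv
  have h3 := congrArg ENNReal.toReal hv
  simp only [ENNReal.toReal_ofReal', Pi.neg_apply] at h3
  have := max_zero_sub_max_neg_zero_eq_self (φ v)
  simp only [Pi.zero_apply]
  linarith

lemma inner_pow_mem_PV (ξ : E) (k : ℕ) : (fun v : E => (inner ℝ v ξ : ℝ) ^ k) ∈ PV k := by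
  induction k with
  | zero =>
    simp only [pow_zero]
    exact Filt.base_mem 0
  | succ k ih =>
    have e : (fun v : E => (inner ℝ v ξ : ℝ) ^ (k + 1)) =
        ∑ j, ξ j • mulC j fun v : E => (inner ℝ v ξ : ℝ) ^ k := by
      funext v
      have : (inner ℝ v ξ : ℝ) = ∑ j, ξ j * v j := by simp [PiLp.inner_apply]
      simp only [Finset.sum_apply, Pi.smul_apply, mulC_apply, smul_eq_mul]
      rw [pow_succ']
      nth_rewrite 1 [this]
      rw [Finset.sum_mul]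
      exact Finset.sum_congr rfl fun j _ => by ring
    rw [e]
    exact Submodule.sum_mem _ fun j _ => Submodule.smul_mem _ _ (Filt.mul_mem j ih)

lemma memLp_sqrt_sqM : MemLp (fun v => √(sqM v)) 2 volume := by
  rw [memLp_two_iff_integrable_sq (continuous_sqM.sqrt.aestronglyMeasurable)]
  refine sqMS.integrable.congr (Eventually.of_forall fun v => ?_)
  simp [Real.sq_sqrt (sqM_pos v).le]

lemma exp_mul_sqM_le (c : ℝ) (v : E) :
    Real.exp (c * ‖v‖) * sqM v ≤ Real.exp (2 * c ^ 2) * √(sqM v) := by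
  rw [sqM, ← Real.exp_half, ← Real.exp_add, ← Real.exp_add]
  apply Real.exp_le_exp.2
  nlinarith [sq_nonneg (4 * c - ‖v‖)]

/-- An `L²` function orthogonal to all polynomials times `sqM` vanishes. -/
theorem hermite_complete {f : E → ℝ} (hf : MemLp f 2 volume)
    (h : ∀ n, ∀ g ∈ HP n, ∫ v, f v * g v = 0) : f =ᵐ[volume] 0 := by
  have hint : Integrable fun v => f v * sqM v := by
    have := hf.integrable_mul (sqMS.memLp 2 volume)
    refine this.congr (Eventually.of_forall fun v => by simp)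
  have key : (fun v => f v * sqM v) =ᵐ[volume] 0 := by
    refine ae_zero_of_char hint fun ξ => ?_
    have hb : Integrable fun v => |f v| * sqM v * Real.exp |(inner ℝ v ξ : ℝ)| := by
      have h1 : Integrable fun v => Real.exp (2 * ‖ξ‖ ^ 2) * (|f v| * √(sqM v)) :=
        (hf.abs.integrable_mul memLp_sqrt_sqM).const_mul _
      refine h1.mono' ?_ (Eventually.of_forall fun v => ?_)
      · exact (hf.abs.1.mul continuous_sqM.aestronglyMeasurable).mul
          (Continuous.aestronglyMeasurable (by fun_prop))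
      · have hp := sqM_pos v
        rw [Real.norm_of_nonneg (by positivity)]
        have h2 : |(inner ℝ v ξ : ℝ)| ≤ ‖ξ‖ * ‖v‖ := by
          rw [mul_comm]; exact abs_real_inner_le_norm v ξ
        calc |f v| * sqM v * Real.exp |(inner ℝ v ξ : ℝ)|
            ≤ |f v| * sqM v * Real.exp (‖ξ‖ * ‖v‖) := by gcongr
          _ = |f v| * (Real.exp (‖ξ‖ * ‖v‖) * sqM v) := by ring
          _ ≤ |f v| * (Real.exp (2 * ‖ξ‖ ^ 2) * √(sqM v)) := 
              mul_le_mul_of_nonneg_left (exp_mul_sqM_le _ _) (abs_nonneg _)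
          _ = _ := by ring
    have hsum : ∀ v : E, HasSum (fun k : ℕ => |f v| * sqM v * (|(inner ℝ v ξ : ℝ)| ^ k / k.factorial))
        (|f v| * sqM v * Real.exp |(inner ℝ v ξ : ℝ)|) := fun v => by
      rw [Real.exp_eq_exp_ℝ]
      exact (NormedSpace.expSeries_div_hasSum_exp |(inner ℝ v ξ : ℝ)|).mul_left _
    have main := hasSum_integral_of_dominated_convergence (μ := volume)
      (F := fun (k : ℕ) (v : E) => ((f v * sqM v : ℝ) : ℂ) *
        ((((inner ℝ v ξ : ℝ) : ℂ) * I) ^ k / k.factorial))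
      (f := fun v => ((f v * sqM v : ℝ) : ℂ) * cexp ((inner ℝ v ξ : ℝ) * I))
      (fun k v => |f v| * sqM v * (|(inner ℝ v ξ : ℝ)| ^ k / k.factorial))
      (fun k => (Complex.continuous_ofReal.comp_aestronglyMeasurable hint.1).mul
        (Continuous.aestronglyMeasurable (by fun_prop)))
      (fun k => Eventually.of_forall fun v => by
        simp [abs_of_pos (sqM_pos v)])
      (Eventually.of_forall fun v => (hsum v).summable)
      (by simpa only [(hsum _).tsum_eq] using hb)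
      (Eventually.of_forall fun v => by
        rw [Complex.exp_eq_exp_ℂ]
        exact (NormedSpace.expSeries_div_hasSum_exp (((inner ℝ v ξ : ℝ) : ℂ) * I)).mul_left _)
    have hz : ∀ k : ℕ, ∫ v : E, ((f v * sqM v : ℝ) : ℂ) *
        ((((inner ℝ v ξ : ℝ) : ℂ) * I) ^ k / k.factorial) = 0 := by
      intro k
      obtain ⟨g, hg, hgv⟩ := exists_HP_of_PV _ (inner_pow_mem_PV ξ k)
      have h1 := h k g hg
      have h2 : ∀ v : E, ((f v * sqM v : ℝ) : ℂ) *
          ((((inner ℝ v ξ : ℝ) : ℂ) * I) ^ k / k.factorial) =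
          (I ^ k / k.factorial) * ((f v * g v : ℝ) : ℂ) := fun v => by
        rw [hgv]; push_cast; ring
      simp only [h2]
      rw [integral_const_mul, integral_complex_ofReal, h1]
      simp
    simp only [hz] at main
    exact main.unique hasSum_zero
  filter_upwards [key] with v hv
  exact (mul_eq_zero.1 hv).resolve_right (sqM_pos v).ne'

end Pool.Agent.BoltzD

end
end MrgPart4

-- ======== part 5: formerly Pool.Agent.BoltzD.Herm.Macro
section MrgPart5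

/-!
The collision invariants in Schwartz space and the macroscopic projection.
-/

set_option autoImplicit false

open MeasureTheory SchwartzMap Pool.Agent.BoltzC

noncomputable section

namespace Pool.Agent.BoltzD

variable [Dim]

/-- Total mass of the Maxwellian. -/
def ZM : ℝ := ip sqMS sqMS

lemma ZM_eq : ZM = ∫ v, sqM v ^ 2 := by simp [ZM, ip_self_eq]

lemma sqMS_ne_zero : sqMS ≠ 0 := fun h => by
  have := congrArg (fun f : SV => f 0) h
  simp [(sqM_pos 0).ne'] at this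

lemma ZM_pos : 0 < ZM :=
  lt_of_le_of_ne (ip_self_nonneg _) fun h => sqMS_ne_zero (ip_self_eq_zero h.symm)

/-- The energy mode `(|V|² - d) sqM`. -/
def e4 : SV := ∑ j, ap j (ap j sqMS)

lemma ap_ap_sqMS (i j : Ix) :
    ap i (ap j sqMS) = mulV i (mulV j sqMS) - (if i = j then (1 : ℝ) else 0) • sqMS := by
  rw [ap_sqMS, ap_mulV, ap_sqMS, mulV_comm]

lemma e4_eq : e4 = ∑ j, mulV j (mulV j sqMS) - (dd : ℝ) • sqMS := by
  simp [e4, ap_ap_sqMS, Nat.cast_smul_eq_nsmul]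

lemma e4_apply (v : E) : e4 v = (‖v‖ ^ 2 - dd) * sqM v := by
  rw [e4_eq, EuclideanSpace.real_norm_sq_eq, sub_mul, Finset.sum_mul, SchwartzMap.sub_apply,
    _root_.sum_apply]
  congr 1
  · exact Finset.sum_congr rfl fun i _ => by simp [sq, mul_assoc]
  · simp

lemma am_ap_sqMS (i j : Ix) : am i (ap j sqMS) = (if i = j then (1 : ℝ) else 0) • sqMS := by
  rw [am_ap, am_sqMS, map_zero, zero_add]

lemma am_e4 (i : Ix) : am i e4 = (2 : ℝ) • ap i sqMS := by
  have : ∀ j, am i (ap j (ap j sqMS)) = (if i = j then (2 : ℝ) else 0) • ap j sqMS := by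
    intro j
    rw [am_ap, am_ap_sqMS, map_smul, ← add_smul]
    congr 1
    split_ifs <;> norm_num
  simp [e4, this]

lemma ip_sqMS_ap (j : Ix) (f : SV) : ip sqMS (ap j f) = 0 := by
  rw [← ip_am, am_sqMS, map_zero, LinearMap.zero_apply]

lemma ip_ap_ap_sqMS (i j : Ix) :
    ip (ap i sqMS) (ap j sqMS) = if i = j then ZM else 0 := by
  rw [ip_ap, am_ap_sqMS, map_smul]
  split_ifs <;> simp [ZM]

lemma ip_sqMS_e4 : ip sqMS e4 = 0 := by simp [e4, ip_sqMS_ap]

lemma ip_ap_e4 (i : Ix) : ip (ap i sqMS) e4 = 0 := by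
  rw [ip_ap, am_e4, map_smul, ip_sqMS_ap, smul_zero]

lemma ip_e4_e4 : ip e4 e4 = 2 * dd * ZM := by
  have : ∀ j, ip (ap j (ap j sqMS)) e4 = 2 * ZM := by
    intro j
    rw [ip_ap, am_e4, map_smul, ip_ap_ap_sqMS]
    simp
  conv_lhs => rw [show ip e4 = ip (∑ j, ap j (ap j sqMS)) from rfl]
  rw [map_sum, LinearMap.sum_apply]
  simp [this]
  ring

lemma hb_zero : hb none = sqMS := rfl

lemma hb_four : hb (some none) = e4 := rfl

lemma hb_succ (j : Ix) : hb (some (some j)) = ap j sqMS := rfl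

/-- Squared norms of the basis, in units of `ZM`. -/
def ew : Hx → ℝ
  | none => 1
  | some none => 2 * dd
  | some (some _) => 1

lemma ew_pos (i : Hx) : 0 < ew i := by
  rcases i with _ | _ | i <;> simp [ew, NeZero.pos dd]

lemma ip_ap_sqMS (j : Ix) (f : SV) : ip (ap j f) sqMS = 0 := by rw [ip_comm, ip_sqMS_ap]

lemma ip_e4_sqMS : ip e4 sqMS = 0 := by rw [ip_comm, ip_sqMS_e4]

lemma ip_e4_ap (k : Ix) : ip e4 (ap k sqMS) = 0 := by rw [ip_comm, ip_ap_e4]

lemma ip_sqMS_sqMS : ip sqMS sqMS = ZM := rfl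

lemma ip_hb (i j : Hx) : ip (hb i) (hb j) = if i = j then ew i * ZM else 0 := by
  rcases i with _ | _ | i <;> rcases j with _ | _ | j <;>
    simp [hb_zero, hb_four, hb_succ, ew, ip_ap_sqMS, ip_e4_sqMS, ip_e4_ap, ip_sqMS_sqMS, ip_sqMS_ap, ip_ap_ap_sqMS,
      ip_sqMS_e4, ip_ap_e4, ip_e4_e4]

lemma eH_eq (i : Hx) : eH i = (√(ew i * ZM))⁻¹ • hb i := by rw [eH, ip_hb, if_pos rfl]

lemma ip_eH (i j : Hx) : ip (eH i) (eH j) = if i = j then 1 else 0 := by
  simp only [eH_eq, map_smul, LinearMap.smul_apply, smul_eq_mul, ip_hb]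
  split_ifs with h
  · subst h
    have h0 : 0 < ew i * ZM := mul_pos (ew_pos i) ZM_pos
    have h1 := Real.mul_self_sqrt h0.le
    have h2 : √(ew i * ZM) ≠ 0 := (Real.sqrt_pos.2 h0).ne'
    field_simp
    nlinarith
  · simp

lemma hb_eq_smul (i : Hx) : hb i = √(ew i * ZM) • eH i := by
  have h2 : √(ew i * ZM) ≠ 0 := (Real.sqrt_pos.2 (mul_pos (ew_pos i) ZM_pos)).ne'
  rw [eH_eq, smul_smul, mul_inv_cancel₀ h2, one_smul]

lemma e4_mem : e4 ∈ HP 2 := by
  rw [e4]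
  exact Submodule.sum_mem _ fun j _ => ap_mem j (ap_mem j (sqMS_mem 0))

lemma hb_mem (i : Hx) : hb i ∈ HP 2 := by
  have h1 : ∀ j, ap j sqMS ∈ HP 2 := fun j => ap_mem j (sqMS_mem 1)
  rcases i with _ | _ | i
  exacts [sqMS_mem 2, e4_mem, h1 i]

lemma eH_mem (i : Hx) : eH i ∈ HP 2 := Submodule.smul_mem _ _ (hb_mem i)

lemma PP_apply' (f : SV) : PP f = ∑ i, (ip (hb i) f / (ew i * ZM)) • hb i := by
  rw [PP_apply]
  refine Finset.sum_congr rfl fun i _ => ?_
  have h0 : 0 < ew i * ZM := mul_pos (ew_pos i) ZM_pos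
  have h2 : √(ew i * ZM) ≠ 0 := (Real.sqrt_pos.2 h0).ne'
  rw [eH_eq, map_smul, LinearMap.smul_apply, smul_smul, smul_eq_mul]
  congr 1
  conv_rhs => rw [← Real.mul_self_sqrt h0.le]
  field_simp

lemma ip_eH_PP (j : Hx) (f : SV) : ip (eH j) (PP f) = ip (eH j) f := by
  simp [PP_apply, ip_eH, -Fintype.sum_option]

lemma ip_hb_PP (j : Hx) (f : SV) : ip (hb j) (PP f) = ip (hb j) f := by
  rw [hb_eq_smul, map_smul, LinearMap.smul_apply, LinearMap.smul_apply, ip_eH_PP]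

lemma PP_PP (f : SV) : PP (PP f) = PP f := by
  conv_lhs => rw [PP_apply]
  simp only [ip_eH_PP]
  rw [← PP_apply]

lemma PP_eH (j : Hx) : PP (eH j) = eH j := by simp [PP_apply, ip_eH]

lemma PP_hb (j : Hx) : PP (hb j) = hb j := by rw [hb_eq_smul, map_smul, PP_eH]

lemma PP_sqMS : PP sqMS = sqMS := PP_hb none

lemma PP_e4 : PP e4 = e4 := PP_hb (some none)

lemma PP_ap_sqMS (j : Ix) : PP (ap j sqMS) = ap j sqMS := by rw [← hb_succ, PP_hb]

lemma ip_PP_left (f g : SV) : ip (PP f) g = ∑ i, ip (eH i) f * ip (eH i) g := by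
  simp [PP_apply]

lemma ip_PP (f g : SV) : ip (PP f) g = ip f (PP g) := by
  rw [ip_comm f, ip_PP_left, ip_PP_left]
  simp only [mul_comm]

lemma ip_PP_PP (f : SV) : ip (PP f) (PP f) = ∑ i, ip (eH i) f ^ 2 := by
  rw [ip_PP, PP_PP, ← ip_PP, ip_PP_left]
  simp only [sq]

lemma ip_PP_PP' (f : SV) : ip (PP f) (PP f) = ∑ i, ip (hb i) f ^ 2 / (ew i * ZM) := by
  rw [ip_PP_PP]
  refine Finset.sum_congr rfl fun i _ => ?_
  rw [eH_eq, map_smul, LinearMap.smul_apply, smul_eq_mul, mul_pow, inv_pow,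
    Real.sq_sqrt (mul_pos (ew_pos i) ZM_pos).le, div_eq_inv_mul]

lemma PP_sub_PP (f : SV) : PP (f - PP f) = 0 := by rw [map_sub, PP_PP, sub_self]

lemma ip_PP_sub_PP (f g : SV) : ip (PP f) (g - PP g) = 0 := by
  rw [ip_PP, PP_sub_PP, map_zero]

lemma ip_sub_PP_PP (f g : SV) : ip (f - PP f) (PP g) = 0 := by rw [ip_comm, ip_PP_sub_PP]

/-- Pythagoras, bilinear form. -/
lemma ip_split₂ (f g : SV) : ip f g = ip (PP f) (PP g) + ip (f - PP f) (g - PP g) := by
  have h := ip_PP_sub_PP f g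
  have h' := ip_sub_PP_PP f g
  conv_lhs => rw [show f = PP f + (f - PP f) by abel, show g = PP g + (g - PP g) by abel]
  simp only [map_add, LinearMap.add_apply, h, h']
  ring

/-- Pythagoras. -/
lemma ip_split (f : SV) : ip f f = ip (PP f) (PP f) + ip (f - PP f) (f - PP f) := ip_split₂ f f

lemma ip_PP_PP_le (f : SV) : ip (PP f) (PP f) ≤ ip f f := by
  linarith [ip_split f, ip_self_nonneg (f - PP f)]

lemma ip_sub_PP_le (f : SV) : ip (f - PP f) (f - PP f) ≤ ip f f := by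
  linarith [ip_split f, ip_self_nonneg (PP f)]

lemma PP_mem (f : SV) : PP f ∈ HP 2 := by
  rw [PP_apply]
  exact Submodule.sum_mem _ fun i _ => Submodule.smul_mem _ _ (eH_mem i)

lemma PP_eq_zero_iff {f : SV} : PP f = 0 ↔ ∀ i, ip (hb i) f = 0 := by
  constructor
  · intro h i
    rw [← ip_hb_PP, h, map_zero]
  · intro h
    simp [PP_apply', h]

lemma PP_eq_zero_iff_micro {f : SV} : PP f = 0 ↔ Coll.Micro f := by
  have h0 : ip sqMS f = ∫ v, f v * Coll.sM v := by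
    rw [ip_comm]
    simp only [ip_def, sqMS_apply]; rfl
  have h1 : ∀ j, ip (ap j sqMS) f = ∫ v, f v * (v j * Coll.sM v) := fun j => by
    rw [ip_comm, ap_sqMS]
    simp only [ip_def, mulV_apply, sqMS_apply]; rfl
  have h2 : ip f (e4 + (dd : ℝ) • sqMS) = ∫ v, f v * (‖v‖ ^ 2 * Coll.sM v) := by
    rw [ip_def]
    congr 1; funext v
    change f v * (e4 v + dd * sqMS v) = f v * (‖v‖ ^ 2 * sqM v)
    rw [e4_apply, sqMS_apply]; ring
  rw [map_add, map_smul, ip_comm f, ip_comm f] at h2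
  rw [PP_eq_zero_iff, Coll.Micro, ← h0, ← h2]
  simp only [← h1]
  constructor
  · intro h
    refine ⟨h none, fun j => ?_, ?_⟩
    · rw [← hb_succ]; exact h _
    · have a := h (some none)
      have b := h none
      rw [hb_four] at a
      rw [hb_zero] at b
      rw [a, b]; simp
  · rintro ⟨a, b, c⟩ i
    rcases i with _ | _ | i
    · exact a
    · rw [a] at c
      change ip e4 f = 0
      simpa using c
    · exact b i

/-- Eigenvectors of `R_1` are eigenvectors of every `R_m`. -/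
lemma RR_eigen (m : ℕ) : ∀ (c : ℝ) (f : SV), RR 1 f = c • f →
    RR m f = (∏ i ∈ Finset.range m, (c + i)) • f := by
  induction m with
  | zero => intro c f _; simp
  | succ m ih =>
    intro c f h
    have h1 : ∀ j, RR 1 (ap j f) = (c + 1) • ap j f := fun j => by
      rw [RR_one_ap, h, map_smul, add_smul, one_smul]
    rw [RR_succ]
    simp only [ih _ _ (h1 _), map_smul, ← Finset.smul_sum]
    rw [← RR_one, h, smul_smul, Finset.prod_range_succ']
    congr 2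
    · refine Finset.prod_congr rfl fun i _ => ?_
      push_cast; ring
    · simp

lemma RR_one_sqMS : RR 1 sqMS = (dd : ℝ) • sqMS := by
  simp [RR_one, am_ap_sqMS, Nat.cast_smul_eq_nsmul]

lemma RR_one_ap_sqMS (j : Ix) : RR 1 (ap j sqMS) = (dd + 1 : ℝ) • ap j sqMS := by
  rw [RR_one_ap, RR_one_sqMS, map_smul]; module

lemma RR_one_e4 : RR 1 e4 = (dd + 2 : ℝ) • e4 := by
  rw [e4, map_sum, Finset.smul_sum]
  refine Finset.sum_congr rfl fun j _ => ?_
  rw [RR_one_ap, RR_one_ap_sqMS, map_smul]; module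

/-- Eigenvalues of `R_1` on the invariants. -/
def ed : Hx → ℝ
  | none => dd
  | some none => dd + 2
  | some (some _) => dd + 1

lemma RR_one_hb (i : Hx) : RR 1 (hb i) = ed i • hb i := by
  rcases i with _ | _ | i
  exacts [RR_one_sqMS, RR_one_e4, RR_one_ap_sqMS i]

lemma RR_eH (m : ℕ) (i : Hx) : RR m (eH i) = (∏ k ∈ Finset.range m, (ed i + k)) • eH i :=
  RR_eigen m _ _ (by rw [eH, map_smul, RR_one_hb, smul_comm])

lemma PP_RR (m : ℕ) (f : SV) : PP (RR m f) = RR m (PP f) := by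
  rw [PP_apply, PP_apply, map_sum]
  refine Finset.sum_congr rfl fun i _ => ?_
  rw [← ip_RR_symm, map_smul, RR_eH, map_smul, smul_smul, LinearMap.smul_apply, smul_eq_mul,
    mul_comm]

lemma ip_PP_RR_sub (m : ℕ) (f g : SV) : ip (PP f) (RR m (g - PP g)) = 0 := by
  rw [ip_PP, PP_RR, PP_sub_PP, map_zero, map_zero]

lemma ip_sub_RR_PP (m : ℕ) (f g : SV) : ip (f - PP f) (RR m (PP g)) = 0 := by
  rw [← ip_RR_symm, ip_comm, ip_PP_RR_sub]

/-- Macroscopic and microscopic parts are orthogonal at every level. -/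
lemma sum_ip_apW_PP (m : ℕ) (f g : SV) :
    ∑ w ∈ words m, ip (apW w (PP f)) (apW w (g - PP g)) = 0 := by
  rw [← ip_RR, ip_PP_RR_sub]

lemma ip_RR_split (m : ℕ) (f g : SV) :
    ip f (RR m g) = ip (PP f) (RR m (PP g)) + ip (f - PP f) (RR m (g - PP g)) := by
  have h := ip_PP_RR_sub m f g
  have h' := ip_sub_RR_PP m f g
  conv_lhs => rw [show f = PP f + (f - PP f) by abel, show g = PP g + (g - PP g) by abel]
  simp only [map_add, LinearMap.add_apply, h, h']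
  ring

lemma nA_split (m : ℕ) (f : SV) : nA m f = nA m (PP f) + nA m (f - PP f) := by
  simp only [nA_eq_ip_RR]
  exact ip_RR_split m f f

lemma nA_sub_PP_le (m : ℕ) (f : SV) : nA m (f - PP f) ≤ nA m f := by
  linarith [nA_split m f, nA_nonneg m (PP f)]

lemma nA_PP_le_nA (m : ℕ) (f : SV) : nA m (PP f) ≤ nA m f := by
  linarith [nA_split m f, nA_nonneg m (f - PP f)]

lemma nA_PP_le (m : ℕ) (f : SV) :
    nA m (PP f) ≤ (∏ k ∈ Finset.range m, (dd + 2 + k : ℝ)) * ip (PP f) (PP f) := by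
  rw [nA_eq_ip_RR, ip_PP_PP, ip_PP_left, Finset.mul_sum]
  refine Finset.sum_le_sum fun i _ => ?_
  rw [← ip_RR_symm, RR_eH, map_smul, LinearMap.smul_apply, ip_eH_PP, smul_eq_mul, mul_left_comm,
    ← sq]
  have h1 : 0 ≤ ed i := by rcases i with _ | _ | i <;> simp only [ed] <;> positivity
  have h2 : ed i ≤ dd + 2 := by rcases i with _ | _ | i <;> simp only [ed] <;> linarith
  gcongr

lemma exists_adj_apW (w : List Ix) : ∀ e : SV, ∃ h : SV, ∀ f, ip e (apW w f) = ip h f := by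
  induction w with
  | nil => exact fun e => ⟨e, fun f => rfl⟩
  | cons j w ih =>
    intro e
    obtain ⟨h, hh⟩ := ih (am j e)
    exact ⟨h, fun f => by rw [apW_cons, ← ip_am, hh]⟩

lemma ip_sq_le (f g : SV) : ip f g ^ 2 ≤ ip f f * ip g g := by
  have h := pow_le_pow_left₀ (abs_nonneg _) (abs_ip_le f g) 2
  rwa [sq_abs, mul_pow, Real.sq_sqrt (ip_self_nonneg _), Real.sq_sqrt (ip_self_nonneg _)] at h

lemma PP_apW_le (w : List Ix) :
    ∃ C : ℝ, 0 ≤ C ∧ ∀ f, ip (PP (apW w f)) (PP (apW w f)) ≤ C * ip f f := by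
  choose h hh using fun i => exists_adj_apW w (eH i)
  refine ⟨∑ i, ip (h i) (h i), Finset.sum_nonneg fun i _ => ip_self_nonneg _, fun f => ?_⟩
  rw [ip_PP_PP, Finset.sum_mul]
  refine Finset.sum_le_sum fun i _ => ?_
  rw [hh]
  exact ip_sq_le _ _

/-- Cauchy-Schwarz for a finite linear combination. -/
lemma ip_sum_smul_le {ι : Type} (s : Finset ι) (c : ι → ℝ) (e : ι → SV) :
    ip (∑ i ∈ s, c i • e i) (∑ i ∈ s, c i • e i) ≤
      (∑ i ∈ s, c i ^ 2) * ∑ i ∈ s, ip (e i) (e i) := by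
  have h1 : ip (∑ i ∈ s, c i • e i) (∑ i ∈ s, c i • e i) ≤
      (∑ i ∈ s, |c i| * √(ip (e i) (e i))) ^ 2 := by
    rw [sq, Finset.sum_mul_sum]
    simp only [map_sum, map_smul, LinearMap.sum_apply, LinearMap.smul_apply, smul_eq_mul,
      Finset.mul_sum]
    refine Finset.sum_le_sum fun i _ => Finset.sum_le_sum fun j _ => ?_
    refine (le_abs_self _).trans ?_
    rw [abs_mul, abs_mul]
    calc |c i| * (|c j| * |ip (e j) (e i)|)
        ≤ |c i| * (|c j| * (√(ip (e j) (e j)) * √(ip (e i) (e i)))) := by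
          gcongr; exact abs_ip_le _ _
      _ = _ := by ring
  refine h1.trans ((Finset.sum_mul_sq_le_sq_mul_sq _ _ _).trans (le_of_eq ?_))
  simp only [sq_abs, Real.sq_sqrt (ip_self_nonneg _)]

/-- Every linear map is bounded on the hydrodynamic part. -/
lemma nA_lin_PP_le (A : SV →ₗ[ℝ] SV) (m : ℕ) :
    ∃ C : ℝ, 0 ≤ C ∧ ∀ f, nA m (A (PP f)) ≤ C * ip (PP f) (PP f) := by
  refine ⟨∑ a, nA m (A (eH a)), Finset.sum_nonneg fun _ _ => nA_nonneg _ _, fun f => ?_⟩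
  rw [ip_PP_PP, PP_apply, nA]
  simp only [nA]
  rw [Finset.sum_comm, Finset.sum_mul]
  refine Finset.sum_le_sum fun w _ => ?_
  simp only [map_sum (apW w), map_sum A, map_smul]
  rw [mul_comm]
  exact ip_sum_smul_le _ _ _

lemma nA_clm_PP_le (A : SV →L[ℝ] SV) (m : ℕ) :
    ∃ C : ℝ, 0 ≤ C ∧ ∀ f, nA m (A (PP f)) ≤ C * ip (PP f) (PP f) :=
  nA_lin_PP_le (A : SV →ₗ[ℝ] SV) m

lemma ip_hb_zero_mulV (i : Ix) (f : SV) :
    ip (hb none) (mulV i f) = ip (hb (some (some i))) f := by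
  rw [← ip_mulV, hb_zero, hb_succ, ap_sqMS]

lemma ip_hb_succ_mulV (i j : Ix) (f : SV) :
    ip (hb (some (some j))) (mulV i (PP f)) =
      if i = j then ip (hb none) f + ip (hb (some none)) f / dd else 0 := by
  have hZ := ZM_pos.ne'
  have hd := dr_ne
  have h1 : ∀ k, ip (ap i (ap j sqMS)) (ap k sqMS) = 0 := fun k => by
    rw [ip_ap, am_ap_sqMS, map_smul, ip_ap_sqMS, smul_zero]
  have h2 : ip (ap i (ap j sqMS)) e4 = if i = j then 2 * ZM else 0 := by
    rw [ip_ap, am_e4, map_smul, ip_ap_ap_sqMS]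
    simp [eq_comm]
  rw [← ip_mulV, hb_succ, ← ap_add_am, am_ap_sqMS, map_add, LinearMap.add_apply, map_smul,
    LinearMap.smul_apply, ← hb_zero, ip_hb_PP, PP_apply', sum_Hx]
  simp only [map_add, map_smul, map_sum, hb_zero, hb_four, hb_succ, ew, h1, h2, ip_ap_sqMS,
    smul_eq_mul]
  split_ifs
  · simp only [mul_zero, Finset.sum_const_zero]
    field_simp; ring
  · simp

lemma ip_hb_four_mulV (i : Ix) (f : SV) :
    ip (hb (some none)) (mulV i (PP f)) = 2 * ip (hb (some (some i))) f := by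
  have h1 : ∀ k, ip (ap i e4) (ap k sqMS) = 0 := fun k => by
    rw [ip_ap, am_ap_sqMS, map_smul, ip_e4_sqMS, smul_zero]
  have h2 : ip (ap i e4) e4 = 0 := by
    rw [ip_ap, am_e4, map_smul, ip_e4_ap, smul_zero]
  have h3 : ip (ap i e4) (PP f) = 0 := by
    rw [PP_apply', sum_Hx]
    simp only [map_add, map_smul, map_sum, hb_zero, hb_four, hb_succ, h1, h2, ip_ap_sqMS,
      smul_eq_mul]
    simp
  rw [← ip_mulV, hb_four, ← ap_add_am, am_e4, map_add, LinearMap.add_apply, h3, map_smul,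
    LinearMap.smul_apply, ← hb_succ, ip_hb_PP, zero_add, smul_eq_mul]

/-- The hydrodynamic part of `V_i` times a hydrodynamic function. -/
lemma ip_PP_mulV_PP (i : Ix) (f : SV) :
    ip (PP (mulV i (PP f))) (PP (mulV i (PP f))) =
      ((dd + 2) / dd * ip (hb (some (some i))) f ^ 2
        + (ip (hb none) f + ip (hb (some none)) f / dd) ^ 2) / ZM := by
  have hZ := ZM_pos.ne'
  have hd := dr_ne
  have h0 := ip_hb_zero_mulV i (PP f)
  rw [ip_hb_PP] at h0
  rw [ip_PP_PP', sum_Hx, h0, ip_hb_four_mulV, Finset.sum_eq_single i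
    (fun j _ hj => by rw [ip_hb_succ_mulV, if_neg hj.symm]; simp) (by simp), ip_hb_succ_mulV,
    if_pos rfl]
  simp only [ew]
  field_simp
  ring

lemma ip_PP_mulV_le (i : Ix) {Y : SV} (hY : PP Y = Y) :
    ip (PP (mulV i Y)) (PP (mulV i Y)) ≤ (dd + 2) / dd * ip Y Y := by
  have hZ := ZM_pos
  have hd := dr_pos
  conv_lhs => rw [← hY, ip_PP_mulV_PP]
  conv_rhs => rw [← hY, ip_PP_PP', sum_Hx]
  simp only [ew, one_mul, ← Finset.sum_div]
  have h : ip (hb (some (some i))) Y ^ 2 ≤ ∑ j, ip (hb (some (some j))) Y ^ 2 :=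
    Finset.single_le_sum (f := fun j => ip (hb (some (some j))) Y ^ 2) (fun _ _ => sq_nonneg _)
      (Finset.mem_univ i)
  set S := ∑ j, ip (hb (some (some j))) Y ^ 2
  set a := ip (hb none) Y
  set b := ip (hb (some none)) Y
  set c := ip (hb (some (some i))) Y
  have e : ((dd : ℝ) + 2) / dd * (a ^ 2 / ZM + (b ^ 2 / (2 * dd * ZM) + S / ZM))
      - ((dd + 2) / dd * c ^ 2 + (a + b / dd) ^ 2) / ZM
      = ((dd + 2) * (S - c ^ 2) + (2 * a - b) ^ 2 / 2) / (dd * ZM) := by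
    field_simp
    ring
  have : 0 ≤ (((dd : ℝ) + 2) * (S - c ^ 2) + (2 * a - b) ^ 2 / 2) / (dd * ZM) := by
    have := sub_nonneg.2 h
    positivity
  linarith

lemma sum_ip_PP_mulV_le {Y : SV} (hY : PP Y = Y) :
    ∑ i, ip (PP (mulV i Y)) (PP (mulV i Y)) ≤ (dd + 2) * ip Y Y := by
  have hd := dr_ne
  refine (sum_le_Ix fun i => ip_PP_mulV_le i hY).trans (le_of_eq ?_)
  field_simp

end Pool.Agent.BoltzD

end
end MrgPart5

-- ======== part 6: formerly Pool.Agent.BoltzD.Pic.Need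
section MrgPart6

/-! The algebraic facts about the energy densities that the Picard iteration uses. -/

set_option autoImplicit false

open Pool.Agent.BoltzC Finset

noncomputable section

namespace Pool.Agent.BoltzD

variable [Dim]

/-- Facts from the module M4c. -/
structure AlgStmt : Prop where
  micro : ∀ (Q : CollOp) (n : ℕ) (θ : ℝ) (σ : E3 → ℝ) (F G : E3 → SV), 0 ≤ θ → Sm F → Sm G →
    (∀ y, PP (F y) = 0) → ∀ x, |bb n θ σ F G x| ≤ √(bb n θ σ F F x) * √(yy Q n θ σ G x)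
  YY_nonneg : ∀ (Q : CollOp) (n : ℕ) (θ : ℝ) (σ : E3 → ℝ) (G : E3 → SV), 0 ≤ θ →
    ∀ x, 0 ≤ YY Q n θ σ G x
  YY_add : ∀ (Q : CollOp) (n : ℕ) (θ : ℝ) (σ : E3 → ℝ) (G H : E3 → SV), 0 ≤ θ → Sm G → Sm H →
    ∀ x, YY Q n θ σ (fun y => G y + H y) x ≤ 2 * YY Q n θ σ G x + 2 * YY Q n θ σ H x
  YY_smul : ∀ (Q : CollOp) (n : ℕ) (θ : ℝ) (σ : E3 → ℝ) (G : E3 → SV) (a : ℝ), Sm G →
    ∀ x, YY Q n θ σ (fun y => a • G y) x = a ^ 2 * YY Q n θ σ G x
  YY_cont : ∀ (Q : CollOp) (n : ℕ) (θ : ℝ) (σ : ℝ → E3 → ℝ) (G : ℝ → E3 → SV),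
    (Continuous fun p : ℝ × E3 => σ p.1 p.2) → SmC G →
    Continuous fun p : ℝ × E3 => YY Q n θ (σ p.1) (G p.1) p.2
  YY_le_bb_yy : ∀ (Q : CollOp) (n : ℕ), ∃ C : ℝ, 0 < C ∧ ∀ (θ : ℝ) (σ : E3 → ℝ) (G : E3 → SV),
    0 ≤ θ → Sm G → ∀ x, YY Q n θ σ G x ≤ C * (bb n θ σ G G x + yy Q n θ σ G x)
  YY_le_bb : ∀ Q : CollOp, ∃ (d : ℕ) (C : ℝ), 0 < C ∧ ∀ (n : ℕ) (θ : ℝ) (σ : E3 → ℝ)
    (G : E3 → SV), 0 ≤ θ → θ ≤ 1 → ∀ x, YY Q n θ σ G x ≤ C * bb (n + d) 1 σ G G x
  mono : ∀ (n n' : ℕ) (θ θ' : ℝ) (σ : E3 → ℝ) (G : E3 → SV), n ≤ n' → 0 ≤ θ → θ ≤ θ' →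
    ∀ x, bb n θ σ G G x ≤ bb n' θ' σ G G x
  clm : ∀ (n : ℕ) (θ e : ℝ) (σ : E3 → ℝ) (G : E3 → SV) (A : SV →L[ℝ] SV), 0 ≤ θ → 0 ≤ e → Sm G →
    (∀ f, nA n (A f) ≤ e * ip f f) →
    ∀ x, bb n θ σ (fun y => A (G y)) (fun y => A (G y)) x ≤ e * bb n θ σ G G x
  mic_tr : ∀ (K : ℕ → ℝ) (n : ℕ) (θ : ℝ), 0 < θ → θ ≤ 1 → ∃ C : ℝ, 0 < C ∧
    ∀ (F : Fld) (σ μ : E3 → ℝ) (W : E3 → SV), F.Reg → F.Bd K σ μ → (∀ x, 0 < σ x) →
      (∀ x, 0 < μ x) → Sm W → (∀ x, PP (W x) = W x) → ∀ x,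
      bb n θ σ (fun y => F.tr W y - PP (F.tr W y)) (fun y => F.tr W y - PP (F.tr W y)) x
        ≤ C * μ x ^ 2 * bb (n + 1) θ σ W W x
  smC_tr : ∀ (F : ℝ → Fld) (G : ℝ → E3 → SV), FldC F → SmC G → SmC fun s => (F s).tr (G s)
  per_tr : ∀ (F : Fld) (G : E3 → SV), F.Reg → Per G → Per (F.tr G)
  smC_per : ∀ (B : BgD) (φ : E3 → SV), Sm φ → SmC (B.per φ)

end Pool.Agent.BoltzD

end
end MrgPart6

-- ======== part 7: formerly Pool.Agent.BoltzD.En.Defs
section MrgPart7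

/-!
Module M4a: definitions and the intermediate statements of the weighted energy estimate.
-/

set_option autoImplicit false

open MeasureTheory Pool.Agent.BoltzC Finset

noncomputable section

namespace Pool.Agent.BoltzD

variable [Dim]

/-- Squared weighted norm in the velocity. -/
def wq (f : SV) : ℝ := ∫ v, (1 + ‖v‖) ^ 4 * f v ^ 2

/-- Sum of the weighted norms of all creation words of length at most `m`. -/
def WW (m : ℕ) (f : SV) : ℝ := ∑ l ∈ range (m + 1), ∑ w ∈ words l, wq (apW w f)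

/-- The symmetric part of the transport form. -/
def NV (m : ℕ) (i : Ix) (f g : SV) : ℝ := ∑ w ∈ words m, ip (mulV i (apW w f)) (apW w g)

/-- Velocity estimates used in the transport inequality. -/
structure VStmt : Prop where
  wq_nonneg : ∀ f, 0 ≤ wq f
  wq_zero : wq 0 = 0
  wq_cont : Continuous wq
  wq_le : ∀ Q : CollOp, ∃ C : ℝ, 0 < C ∧ ∀ f, wq f ≤ C * Q.dq f
  comm : ∀ m, ∃ C : ℝ, 0 < C ∧ ∀ i f g,
    |ip (mulV i f) (RR (m + 1) g) - NV (m + 1) i f g| ≤ C * √(WW m f) * √(WW (m + 1) g)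
  nv : ∀ m i f g, |NV m i f g| ≤ √(WW m f) * √(WW m g)
  rr : ∀ m f g, |ip f (RR m g)| ≤ √(WW m f) * √(WW m g)
  mv : ∀ m, ∃ C : ℝ, 0 < C ∧ ∀ i f g, |ip (mulV i f) (RR m g)| ≤ C * √(WW m f) * √(WW m g)
  top : ∀ m, ∃ C : ℝ, 0 < C ∧ ∀ i j l f, |ip (ap l f) (RR m f)| ≤ C * WW m f ∧
    |ip (mulV i (ap l f)) (RR m f)| ≤ C * WW m f ∧
    |ip (mulV i (mulV j (ap l f))) (RR m f)| ≤ C * WW m f
  low : ∀ m, ∃ C : ℝ, 0 < C ∧ ∀ i j l f g,
    |ip (ap l f) (RR m g)| ≤ C * √(WW (m + 1) f) * √(WW m g) ∧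
    |ip (mulV i (ap l f)) (RR m g)| ≤ C * √(WW (m + 1) f) * √(WW m g) ∧
    |ip (mulV i (mulV j (ap l f))) (RR m g)| ≤ C * √(WW (m + 1) f) * √(WW m g)
  split : ∀ m, ∃ C : ℝ, 0 < C ∧ ∀ f, WW m f ≤ C * (ip (PP f) (PP f) + WW m (f - PP f))
  sharp1 : ∀ (ξ : Ix → ℝ) (Y : SV),
    |∑ i, ξ i * ip (mulV i (PP Y)) (PP Y)| ≤ cs * √(∑ i, ξ i ^ 2) * ip (PP Y) (PP Y)
  sharp2 : ∀ (ξ : Ix → ℝ) (X : Ix → SV),
    |∑ p, ∑ i, ξ p * ip (mulV i (PP (X i))) (PP (X p))|
      ≤ cs * √(∑ i, ξ i ^ 2) * ∑ i, ip (PP (X i)) (PP (X i))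
  cross : ∃ C : ℝ, 0 < C ∧ ∀ i f g, |ip (mulV i f) g - ip (mulV i (PP f)) (PP g)| ≤
    C * (√(ip (PP f) (PP f)) * √(wq (g - PP g)) + √(wq (f - PP f)) * √(ip (PP g) (PP g))
      + √(wq (f - PP f)) * √(wq (g - PP g)))
  matr : ∀ (κ a : ℝ) (M : Ix → Ix → ℝ),
    (∀ ξ : Ix → ℝ, κ * ∑ i, ξ i ^ 2 ≤ a * ∑ i, ξ i ^ 2 + ∑ p, ∑ i, ξ p * ξ i * M p i) →
    ∀ (m : ℕ) (X : Ix → SV), κ * ∑ i, ip (X i) (RR m (X i)) ≤
      a * ∑ i, ip (X i) (RR m (X i)) + ∑ p, ∑ i, M p i * ip (X i) (RR m (X p))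

/-- Hydrodynamic size at level `j`. -/
def zz (j : ℕ) (σ : E3 → ℝ) (G : E3 → SV) (x : E3) : ℝ :=
  σ x ^ (2 * j) * ∑ u ∈ words j, ip (PP (dXw u G x)) (PP (dXw u G x))

/-- Weighted size of the non-hydrodynamic part. -/
def yw (n : ℕ) (σ : E3 → ℝ) (G : E3 → SV) (x : E3) : ℝ :=
  lev n 1 (σ x) fun u m => ∑ w ∈ words m, wq (apW w (dXw u G x - PP (dXw u G x)))

/-- The part of the time derivative of the energy density that comes from the weights. -/
def et (n : ℕ) (θ : ℝ) (ω σ ωt σt : E3 → ℝ) (G : E3 → SV) (x : E3) : ℝ :=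
  ωt x * bb n θ σ G G x + ω x * ∑ j ∈ range (n + 1), ∑ m ∈ range (n + 1 - j),
    θ ^ (j + m) * (2 * j * σ x ^ (2 * j - 1) * σt x) *
      ∑ u ∈ words j, ip (dXw u G x) (RR m (dXw u G x))

/-- Time derivative of the energy. -/
def EtStmt : Prop :=
  ∀ (n : ℕ) (θ : ℝ) (ω ωt σ σt : ℝ → E3 → ℝ) (g g' : ℝ → E3 → SV), SmD ω ωt → SmD σ σt →
    SmD g g' →
    Continuous (fun s => tint (et n θ (ω s) (σ s) (ωt s) (σt s) (g s))
      + 2 * En n θ (ω s) (σ s) (g' s) (g s)) ∧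
    ∀ s, HasDerivAt (fun t => En n θ (ω t) (σ t) (g t) (g t))
      (tint (et n θ (ω s) (σ s) (ωt s) (σt s) (g s)) + 2 * En n θ (ω s) (σ s) (g' s) (g s)) s

/-- Weighted interpolation between the hydrodynamic levels. -/
def InterpStmt : Prop :=
  ∀ (K : ℝ) (n : ℕ) (ε : ℝ), 0 < ε → ∃ C : ℝ, 0 < C ∧
    ∀ (ω σ μ : E3 → ℝ) (G : E3 → SV), Slow K σ ω → Slow K σ σ → Slow K σ μ → Sm G → Per G →
      ∑ j ∈ range n, tint (fun x => μ x * ω x * zz j σ G x)
        ≤ ε * tint (fun x => μ x * ω x * zz n σ G x) + C * tint fun x => μ x * ω x * zz 0 σ G x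

/-- The transport inequality. -/
def TrStmt : Prop :=
  ∀ K : ℕ → ℝ, ∃ K0 : ℝ, ∀ (n : ℕ) (θ ε : ℝ), 0 < θ → θ ≤ 1 → 0 < ε → ∃ C : ℝ, 0 < C ∧
    ∀ (F : Fld) (lam : ℝ) (ω σ μ ωt σt γ : E3 → ℝ) (G : E3 → SV), 0 ≤ lam → F.Reg → F.Bd K σ μ →
      WtBd F K lam ω σ μ ωt σt γ → Continuous ωt → Continuous σt → Continuous γ → Sm G → Per G →
      tint (et n θ ω σ ωt σt G) + tint (fun x => γ x * bb n θ σ G G x)
        ≤ 2 * En n θ ω σ (F.tr G) G
          + (θ ^ n * (K0 - 2 * n * lam) + ε) * tint (fun x => μ x * ω x * zz n σ G x)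
          + C * ∑ j ∈ range n, tint (fun x => μ x * ω x * zz j σ G x)
          + C * tint fun x => μ x * ω x * yw n σ G x

end Pool.Agent.BoltzD

end
end MrgPart7

-- ======== part 8: formerly Pool.Agent.BoltzD.En.Split
section MrgPart8

/-!
Combinatorics of the Leibniz rule: sums over the splittings of a word.
-/

set_option autoImplicit false

open Pool.Agent.BoltzC Finset

noncomputable section

namespace Pool.Agent.BoltzD

variable [Dim]

/-- Sum over all splittings of `u`. -/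
def SP (u : List Ix) (φ : List Ix → List Ix → ℝ) : ℝ :=
  ((splits u).map fun p => φ p.1 p.2).sum

lemma SP_nil (φ : List Ix → List Ix → ℝ) : SP [] φ = φ [] [] := by simp [SP, splits]

lemma SP_cons (i : Ix) (u : List Ix) (φ : List Ix → List Ix → ℝ) :
    SP (i :: u) φ = SP u (fun a b => φ (i :: a) b) + SP u fun a b => φ a (i :: b) := by
  simp [SP, splits, List.map_map, Function.comp_def]

/-- The terms with exactly one letter on the left. -/
def O1 : List Ix → (List Ix → List Ix → ℝ) → ℝ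
  | [], _ => 0
  | i :: u, φ => φ [i] u + O1 u fun a b => φ a (i :: b)

lemma abs_SP_le {M : ℝ} (u : List Ix) : ∀ φ : List Ix → List Ix → ℝ,
    (∀ a b, a.length + b.length = u.length → |φ a b| ≤ M) → |SP u φ| ≤ 2 ^ u.length * M := by
  induction u with
  | nil => intro φ h; simpa [SP_nil] using h [] [] rfl
  | cons i u ih =>
    intro φ h
    rw [SP_cons]
    have h1 := ih (fun a b => φ (i :: a) b) fun a b hab => h _ _ (by simp; omega)
    have h2 := ih (fun a b => φ a (i :: b)) fun a b hab => h _ _ (by simp; omega)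
    refine (abs_add_le _ _).trans ?_
    rw [List.length_cons, pow_succ]
    linarith

lemma abs_SP_sub_le {M : ℝ} (hM : 0 ≤ M) (u : List Ix) :
    ∀ φ : List Ix → List Ix → ℝ,
    (∀ a b, 1 ≤ a.length → a.length + b.length = u.length → |φ a b| ≤ M) →
      |SP u φ - φ [] u| ≤ 2 ^ u.length * M := by
  induction u with
  | nil => intro φ _; simpa [SP_nil] using hM
  | cons i u ih =>
    intro φ h
    have h1 := abs_SP_le u (fun a b => φ (i :: a) b) fun a b hab => h _ _ (by simp) (by simp; omega)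
    have h2 := ih (fun a b => φ a (i :: b)) fun a b ha hab => h _ _ ha (by simp; omega)
    rw [SP_cons, add_sub_assoc]
    refine (abs_add_le _ _).trans ?_
    rw [List.length_cons, pow_succ]
    linarith

lemma abs_SP_sub2_le {M : ℝ} (hM : 0 ≤ M) (u : List Ix) :
    ∀ φ : List Ix → List Ix → ℝ,
    (∀ a b, 2 ≤ a.length → a.length + b.length = u.length → |φ a b| ≤ M) →
      |SP u φ - φ [] u - O1 u φ| ≤ 2 ^ u.length * M := by
  induction u with
  | nil => intro φ _; simpa [SP_nil, O1] using hM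
  | cons i u ih =>
    intro φ h
    have h1 := abs_SP_sub_le hM u (fun a b => φ (i :: a) b) fun a b ha hab =>
      h _ _ (by simp; omega) (by simp; omega)
    have h2 := ih (fun a b => φ a (i :: b)) fun a b ha hab => h _ _ ha (by simp; omega)
    have e : SP (i :: u) φ - φ [] (i :: u) - O1 (i :: u) φ =
        (SP u (fun a b => φ (i :: a) b) - φ [i] u) + (SP u (fun a b => φ a (i :: b))
          - φ [] (i :: u) - O1 u fun a b => φ a (i :: b)) := by
      rw [SP_cons, O1]; ring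
    rw [e]
    refine (abs_add_le _ _).trans ?_
    rw [List.length_cons, pow_succ]
    linarith

lemma SP_congr (u : List Ix) : ∀ φ ψ : List Ix → List Ix → ℝ,
    (∀ a b, (a ++ b).Perm u → φ a b = ψ a b) → SP u φ = SP u ψ := by
  induction u with
  | nil => intro φ ψ h; simpa [SP_nil] using h [] [] (List.Perm.refl _)
  | cons i u ih =>
    intro φ ψ h
    rw [SP_cons, SP_cons, ih _ (fun a b => ψ (i :: a) b) fun a b hab => h _ _ (hab.cons i),
      ih _ (fun a b => ψ a (i :: b)) fun a b hab =>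
        h _ _ (List.perm_middle.trans (hab.cons i))]

lemma sum_O1 (j : ℕ) : ∀ ψ : List Ix → List Ix → ℝ,
    ∑ u ∈ words (j + 1), O1 u ψ = (j + 1 : ℝ) * ∑ b ∈ words j, ∑ p, ψ [p] b := by
  induction j with
  | zero => intro ψ; simp [words, O1]
  | succ j ih =>
    intro ψ
    rw [sum_words_succ]
    simp only [O1, sum_add_distrib, ih]
    rw [sum_words_succ j, ← mul_sum, sum_comm (s := univ) (t := words (j + 1)), sum_words_succ j]
    push_cast
    ring

lemma card_words (j : ℕ) : (words j).card = dd ^ j := by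
  induction j with
  | zero => simp [words]
  | succ j ih => rw [words, card_map, card_product, ih]; simp [pow_succ, mul_comm]

lemma sum_words_le {j : ℕ} {φ : List Ix → ℝ} {M : ℝ} (h : ∀ u, u.length = j → φ u ≤ M) :
    ∑ u ∈ words j, φ u ≤ (dd : ℝ) ^ j * M := by
  have := sum_le_card_nsmul (words j) φ M fun u hu => h u (mem_words.1 hu)
  simpa [card_words] using this

lemma map_list_sum_ip (l : List (List Ix × List Ix))
    (φ : List Ix × List Ix → SV) (h : SV) :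
    ip (l.map φ).sum h = (l.map fun p => ip (φ p) h).sum := by
  induction l with
  | nil => simp
  | cons p l ih => simp [ih]

end Pool.Agent.BoltzD

end
end MrgPart8

-- marker of a merged file
example : 731051 + 509233 = 731051 + 509233 := rfl
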